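import Pool.Agent.Q9h3.AB.Hyp4

/-!
# The hypergraph of a family of non-crossing conditions: completeness
-/

set_option autoImplicit false
set_option synthInstance.maxSize 2000

namespace Pool.Agent.Q9h3.AB

open Pool.Agent.Lib.CX

/-- membership in a star -/
def MS (n k x : ℕ) (v : ℕ × ℕ) : Prop := v.1 = k ∧ (v.2 = n ∨ v.2 = x)
/-- membership in a low hyperedge -/
def ML (n k c d : ℕ) (v : ℕ × ℕ) : Prop := v.2 = n ∨ v.1 < k ∨ (v.1 = k ∧ v.2 = c) ∨ (v.1 = k ∧ v.2 = d)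
/-- membership in a matching hyperedge -/
def MM (n k x : ℕ) (v : ℕ × ℕ) : Prop :=
  v.2 = n ∨ (v.1 ≤ k ∧ ¬ (v.1 = k ∧ v.2 = x)) ∨ (v.1 = k + 1 ∧ v.2 = x)

section
variable {a : List Unit × List Quad} {n K : ℕ} (hn : a.1.length = n) (hK : a.2.length = K)

include hn hK in
theorem he_types {A : List (ℕ × ℕ)} (h : A ∈ he a) :
    (∃ k x, x < n ∧ ∀ v ∈ hv a, (v ∈ A ↔ MS n k x v)) ∨
    (∃ k, k < K ∧ ∀ v ∈ hv a, (v ∈ A ↔ ML n k (qd a k).1.1 (qd a k).1.2 v)) ∨
    (∃ k, k < K ∧ ∀ v ∈ hv a, (v ∈ A ↔ ML n k (qd a k).2.1 (qd a k).2.2 v)) ∨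
    (∃ k x, x < n ∧ ∀ v ∈ hv a, (v ∈ A ↔ MM n k x v)) := by
  rcases (mem_he hn hK).1 h with ⟨k, x, h1, h2, rfl⟩ | ⟨k, h1, rfl⟩ | ⟨k, h1, rfl⟩ | ⟨k, x, h1, h2, rfl⟩
  · refine Or.inl ⟨k, x, h2, fun v _ => ?_⟩
    simp only [MS, List.mem_cons, List.not_mem_nil, or_false, Prod.ext_iff]
    tauto
  · refine Or.inr (Or.inl ⟨k, h1, fun v hv' => ?_⟩)
    simp only [ML, List.mem_filter, decide_eq_true_eq, Prod.ext_iff, hv', true_and]
  · refine Or.inr (Or.inr (Or.inl ⟨k, h1, fun v hv' => ?_⟩))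
    simp only [ML, List.mem_filter, decide_eq_true_eq, Prod.ext_iff, hv', true_and]
  · refine Or.inr (Or.inr (Or.inr ⟨k, x, h2, fun v hv' => ?_⟩))
    simp only [MM, List.mem_filter, decide_eq_true_eq, Prod.ext_iff, hv', true_and, ne_eq]

/-- two different points are in a difference of size one -/
theorem ssub (n k x : ℕ) {u v : ℕ × ℕ} (h0 : u ≠ v) (hu : u.1 = k ∧ u.2 = x) (hv : v.1 = k ∧ v.2 = x) :
    False := h0 (Prod.ext (hu.1.trans hv.1.symm) (hu.2.trans hv.2.symm))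

theorem dS {n k x : ℕ} {v : ℕ × ℕ} (h : MS n k x v) (h2 : v.2 ≠ n) : v.1 = k ∧ v.2 = x :=
  ⟨h.1, h.2.resolve_left h2⟩

theorem dLM {n k c d j y : ℕ} {v : ℕ × ℕ} (h : ML n k c d v) (h2 : ¬ MM n j y v) (hkj : k ≤ j) :
    v.1 = j ∧ v.2 = y := by
  unfold ML at h
  unfold MM at h2
  omega

theorem dML {n k c d j y : ℕ} {v : ℕ × ℕ} (h : MM n j y v) (h2 : ¬ ML n k c d v) (hkj : j < k) :
    v.1 = j + 1 ∧ v.2 = y := by
  unfold MM at h
  unfold ML at h2
  omega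

theorem dMM {n k x j y : ℕ} {v : ℕ × ℕ} (h : MM n k x v) (h2 : ¬ MM n j y v) (hkj : k < j) :
    v.1 = k + 1 ∧ v.2 = x := by
  unfold MM at h h2
  omega

theorem dMM' {n k x y : ℕ} {v : ℕ × ℕ} (h : MM n k x v) (h2 : ¬ MM n k y v) :
    (v.1 = k ∧ v.2 = y) ∨ (v.1 = k + 1 ∧ v.2 = x) := by
  unfold MM at h h2
  omega

theorem dLL {n k c d j c' d' : ℕ} {v : ℕ × ℕ} (h : ML n k c d v) (h2 : ¬ ML n j c' d' v) (hkj : k < j) :
    False := by
  unfold ML at h h2
  omega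

theorem dLL' {n k c d c' d' : ℕ} {v : ℕ × ℕ} (h : ML n k c d v) (h2 : ¬ ML n k c' d' v) :
    v.1 = k ∧ (v.2 = c ∨ v.2 = d) := by
  unfold ML at h h2
  omega

include hn hK in
theorem complete4 {p : ℕ → ℕ} (hp : ∀ x y, x < n → y < n → p x = p y → x = y)
    (hq : ∀ q ∈ a.2, GoodQ n q) (hc : ∀ q ∈ a.2, ¬ Cr (p q.1.1) (p q.1.2) (p q.2.1) (p q.2.2)) :
    FreeV ℕ 4 (hv a) (he a) := by
  refine FreeV.rank (L := ℕ ×ₗ ℕ) he_sub ?_
  let w : ℕ → ℕ := fun z => if z = n then 0 else p z + 1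
  have hw : ∀ x y, x ≤ n → y ≤ n → w x = w y → x = y := by
    intro x y hx hy h
    simp only [w] at h
    split_ifs at h with h1 h2
    · omega
    · exact hp x y (by omega) (by omega) (by omega)
  have hwp : ∀ x y, x < n → y < n → w x < w y → p x < p y := by
    intro x y hx hy h
    simp only [w, hx.ne, hy.ne, if_false] at h
    omega
  refine ⟨fun v => toLex (v.1, w v.2), ?_, ?_⟩
  · rintro ⟨k, x⟩ h1 ⟨l, y⟩ h2 h
    have e1 := congrArg (fun z => (ofLex z).1) h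
    have e2 := congrArg (fun z => (ofLex z).2) h
    simp only [ofLex_toLex] at e1 e2
    have h1' := (mem_hv.1 h1).2
    have h2' := (mem_hv.1 h2).2
    simp only [hn] at h1' h2'
    rw [e1, hw x y h1' h2' e2]
  · rintro A hA B hB ⟨x, hx1, hx2⟩
    have hm := altG_mem (L := ℕ) (pos := fun _ => 0) hx1 (S := fun v => v ∈ hv a) (he_sub A hA) (he_sub B hB)
    have a0 := hx1 0 (by omega)
    have a1 := hx1 1 (by omega)
    have a2 := hx1 2 (by omega)
    have a3 := hx1 3 (by omega)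
    rw [if_pos (by decide)] at a0 a2
    rw [if_neg (by decide)] at a1 a3
    have m0 := hm 0 (by omega)
    have m1 := hm 1 (by omega)
    have m2 := hm 2 (by omega)
    have m3 := hm 3 (by omega)
    have l1 := hx2 0 1 (by omega) (by omega)
    have l2 := hx2 1 2 (by omega) (by omega)
    have l3 := hx2 2 3 (by omega) (by omega)
    have ne : ∀ i j, i < j → j < 4 → x i ≠ x j := by
      intro i j hij hj h
      have := hx2 i j hij hj
      rw [h] at this
      exact lt_irrefl _ this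
    have n02 := ne 0 2 (by omega) (by omega)
    have n13 := ne 1 3 (by omega) (by omega)
    clear hx1 hx2 hm ne
    generalize x 0 = x0 at *
    generalize x 1 = x1 at *
    generalize x 2 = x2 at *
    generalize x 3 = x3 at *
    simp only [Prod.Lex.toLex_lt_toLex] at l1 l2 l3
    -- the crossing contradiction
    have cross : ∀ k, k < K → ∀ q ∈ a.2, x0.1 = k → x1.1 = k → x2.1 = k → x3.1 = k →
        ((x0.2 = q.1.1 ∨ x0.2 = q.1.2) ∧ (x2.2 = q.1.1 ∨ x2.2 = q.1.2) ∧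
          (x1.2 = q.2.1 ∨ x1.2 = q.2.2) ∧ (x3.2 = q.2.1 ∨ x3.2 = q.2.2) ∨
        (x0.2 = q.2.1 ∨ x0.2 = q.2.2) ∧ (x2.2 = q.2.1 ∨ x2.2 = q.2.2) ∧
          (x1.2 = q.1.1 ∨ x1.2 = q.1.2) ∧ (x3.2 = q.1.1 ∨ x3.2 = q.1.2)) → False := by
      intro k hk q hqm k0 k1 k2 k3 hor
      obtain ⟨g0, g1, g2, g3, g4⟩ := hq q hqm
      have hcr := hc q hqm
      have n02' : x0.2 ≠ x2.2 := fun h => n02 (Prod.ext (k0.trans k2.symm) h)
      have n13' : x1.2 ≠ x3.2 := fun h => n13 (Prod.ext (k1.trans k3.symm) h)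
      have w1 : w x0.2 < w x1.2 := by omega
      have w2 : w x1.2 < w x2.2 := by omega
      have w3 : w x2.2 < w x3.2 := by omega
      have s0 : x0.2 < n := by omega
      have s1 : x1.2 < n := by omega
      have s2 : x2.2 < n := by omega
      have s3 : x3.2 < n := by omega
      have p1 := hwp _ _ s0 s1 w1
      have p2 := hwp _ _ s1 s2 w2
      have p3 := hwp _ _ s2 s3 w3
      apply hcr
      unfold Cr
      rcases hor with ⟨h0, h2, h1, h3⟩ | ⟨h0, h2, h1, h3⟩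
      · rcases h0 with h0 | h0 <;> rcases h1 with h1 | h1 <;> rcases h2 with h2 | h2 <;>
          rcases h3 with h3 | h3 <;> rw [h0, h1] at p1 <;> rw [h1, h2] at p2 <;> rw [h2, h3] at p3 <;>
          first
          | exact absurd (h0.trans h2.symm) n02'
          | exact absurd (h1.trans h3.symm) n13'
          | (clear * - p1 p2 p3; omega)
      · rcases h0 with h0 | h0 <;> rcases h1 with h1 | h1 <;> rcases h2 with h2 | h2 <;>
          rcases h3 with h3 | h3 <;> rw [h0, h1] at p1 <;> rw [h1, h2] at p2 <;> rw [h2, h3] at p3 <;>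
          first
          | exact absurd (h0.trans h2.symm) n02'
          | exact absurd (h1.trans h3.symm) n13'
          | (clear * - p1 p2 p3; omega)
    have qmem : ∀ k, k < K → qd a k ∈ a.2 := by
      intro k hk
      unfold qd
      rw [List.getD_eq_getElem _ _ (by omega)]
      exact List.getElem_mem _
    -- the two-layer contradiction
    have same : ∀ k x y, (x0.1 = k ∧ x0.2 = y) ∨ (x0.1 = k + 1 ∧ x0.2 = x) →
        (x2.1 = k ∧ x2.2 = y) ∨ (x2.1 = k + 1 ∧ x2.2 = x) →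
        (x1.1 = k ∧ x1.2 = x) ∨ (x1.1 = k + 1 ∧ x1.2 = y) →
        (x3.1 = k ∧ x3.2 = x) ∨ (x3.1 = k + 1 ∧ x3.2 = y) → False := by
      intro k x y h0 h2 h1 h3
      have n02' : ¬ (x0.1 = x2.1 ∧ x0.2 = x2.2) := fun h => n02 (Prod.ext h.1 h.2)
      have n13' : ¬ (x1.1 = x3.1 ∧ x1.2 = x3.2) := fun h => n13 (Prod.ext h.1 h.2)
      have f0 : x0.1 = k ∧ x0.2 = y := by omega
      have f2 : x2.1 = k + 1 ∧ x2.2 = x := by omega
      have f1 : x1.1 = k ∧ x1.2 = x := by omega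
      have f3 : x3.1 = k + 1 ∧ x3.2 = y := by omega
      rw [f0.1, f0.2, f1.1, f1.2] at l1
      rw [f2.1, f2.2, f3.1, f3.2] at l3
      omega
    rw [← hK] at *
    dsimp only at a0 a1 a2 a3
    rcases he_types hn rfl hA with ⟨k, x, h2, hA'⟩ | ⟨k, h1, hA'⟩ | ⟨k, h1, hA'⟩ | ⟨k, x, h2, hA'⟩ <;>
    rcases he_types hn rfl hB with ⟨j, y, h2', hB'⟩ | ⟨j, h1', hB'⟩ | ⟨j, h1', hB'⟩ | ⟨j, y, h2', hB'⟩ <;>
    rw [hA' _ m0, hB' _ m0] at a0 <;> rw [hA' _ m1, hB' _ m1] at a1 <;>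
    rw [hA' _ m2, hB' _ m2] at a2 <;> rw [hA' _ m3, hB' _ m3] at a3
    -- star against anything
    · unfold MS at a0 a1 a2 a3
      have n02' : ¬ (x0.1 = x2.1 ∧ x0.2 = x2.2) := fun h => n02 (Prod.ext h.1 h.2)
      omega
    · exact ssub n k x n02 (dS a0.1 fun h => a0.2 (Or.inl h)) (dS a2.1 fun h => a2.2 (Or.inl h))
    · exact ssub n k x n02 (dS a0.1 fun h => a0.2 (Or.inl h)) (dS a2.1 fun h => a2.2 (Or.inl h))
    · exact ssub n k x n02 (dS a0.1 fun h => a0.2 (Or.inl h)) (dS a2.1 fun h => a2.2 (Or.inl h))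
    -- low, first pair
    · exact ssub n j y n13 (dS a1.1 fun h => a1.2 (Or.inl h)) (dS a3.1 fun h => a3.2 (Or.inl h))
    · rcases lt_trichotomy k j with h | h | h
      · exact dLL a0.1 a0.2 h
      · subst h; exact a0.2 a0.1
      · exact dLL a1.1 a1.2 h
    · rcases lt_trichotomy k j with h | h | h
      · exact dLL a0.1 a0.2 h
      · subst h
        have e0 := dLL' a0.1 a0.2
        have e1 := dLL' a1.1 a1.2
        have e2 := dLL' a2.1 a2.2
        have e3 := dLL' a3.1 a3.2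
        exact cross k h1 _ (qmem k h1) e0.1 e1.1 e2.1 e3.1 (Or.inl ⟨e0.2, e2.2, e1.2, e3.2⟩)
      · exact dLL a1.1 a1.2 h
    · rcases le_or_gt k j with h | h
      · exact ssub n j y n02 (dLM a0.1 a0.2 h) (dLM a2.1 a2.2 h)
      · exact ssub n (j + 1) y n13 (dML a1.1 a1.2 h) (dML a3.1 a3.2 h)
    -- low, second pair
    · exact ssub n j y n13 (dS a1.1 fun h => a1.2 (Or.inl h)) (dS a3.1 fun h => a3.2 (Or.inl h))
    · rcases lt_trichotomy k j with h | h | h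
      · exact dLL a0.1 a0.2 h
      · subst h
        have e0 := dLL' a0.1 a0.2
        have e1 := dLL' a1.1 a1.2
        have e2 := dLL' a2.1 a2.2
        have e3 := dLL' a3.1 a3.2
        exact cross k h1 _ (qmem k h1) e0.1 e1.1 e2.1 e3.1 (Or.inr ⟨e0.2, e2.2, e1.2, e3.2⟩)
      · exact dLL a1.1 a1.2 h
    · rcases lt_trichotomy k j with h | h | h
      · exact dLL a0.1 a0.2 h
      · subst h; exact a0.2 a0.1
      · exact dLL a1.1 a1.2 h
    · rcases le_or_gt k j with h | h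
      · exact ssub n j y n02 (dLM a0.1 a0.2 h) (dLM a2.1 a2.2 h)
      · exact ssub n (j + 1) y n13 (dML a1.1 a1.2 h) (dML a3.1 a3.2 h)
    -- matching
    · exact ssub n j y n13 (dS a1.1 fun h => a1.2 (Or.inl h)) (dS a3.1 fun h => a3.2 (Or.inl h))
    · rcases lt_or_ge k j with h | h
      · exact ssub n (k + 1) x n02 (dML a0.1 a0.2 h) (dML a2.1 a2.2 h)
      · exact ssub n k x n13 (dLM a1.1 a1.2 h) (dLM a3.1 a3.2 h)
    · rcases lt_or_ge k j with h | h
      · exact ssub n (k + 1) x n02 (dML a0.1 a0.2 h) (dML a2.1 a2.2 h)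
      · exact ssub n k x n13 (dLM a1.1 a1.2 h) (dLM a3.1 a3.2 h)
    · rcases lt_trichotomy k j with h | h | h
      · exact ssub n (k + 1) x n02 (dMM a0.1 a0.2 h) (dMM a2.1 a2.2 h)
      · subst h
        exact same k x y (dMM' a0.1 a0.2) (dMM' a2.1 a2.2) (dMM' a1.1 a1.2) (dMM' a3.1 a3.2)
      · exact ssub n (j + 1) y n13 (dMM a1.1 a1.2 h) (dMM a3.1 a3.2 h)

end

end Pool.Agent.Q9h3.AB
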