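import Pool.Agent.Q9h3.AB.Gen

/-!
# ABA-free hypergraphs: the combinatorial criterion
-/

set_option autoImplicit false

namespace Pool.Agent.Q9h3.AB

open Pool.Agent.Lib.CX Relation

/-- `x ∈ A \ B` and `y ∈ B \ A` -/
def Sp (A B : List ℕ) (p : ℕ × ℕ) : Prop := (p.1 ∈ A ∧ p.1 ∉ B) ∧ (p.2 ∈ B ∧ p.2 ∉ A)

instance (A B : List ℕ) (p : ℕ × ℕ) : Decidable (Sp A B p) := by unfold Sp; infer_instance

/-- two pairs separated by the same two hyperedges -/
def R (E : List (List ℕ)) (p q : ℕ × ℕ) : Prop := ∃ A ∈ E, ∃ B ∈ E, Sp A B p ∧ Sp A B q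

instance (E : List (List ℕ)) (p q : ℕ × ℕ) : Decidable (R E p q) := by unfold R; infer_instance

section
variable {E : List (List ℕ)}

theorem R.symm {p q : ℕ × ℕ} (h : R E p q) : R E q p := by
  obtain ⟨A, hA, B, hB, h1, h2⟩ := h
  exact ⟨A, hA, B, hB, h2, h1⟩

theorem R.swap {p q : ℕ × ℕ} (h : R E p q) : R E p.swap q.swap := by
  obtain ⟨A, hA, B, hB, h1, h2⟩ := h
  exact ⟨B, hB, A, hA, ⟨h1.2, h1.1⟩, ⟨h2.2, h2.1⟩⟩

theorem R.act {p q : ℕ × ℕ} (h : R E p q) : R E q q := by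
  obtain ⟨A, hA, B, hB, h1, h2⟩ := h
  exact ⟨A, hA, B, hB, h2, h2⟩

/-- the equivalence closure -/
abbrev C (E : List (List ℕ)) (p q : ℕ × ℕ) : Prop := ReflTransGen (R E) p q

theorem C.symm {p q : ℕ × ℕ} (h : C E p q) : C E q p := by
  induction h with
  | refl => exact .refl
  | tail _ h2 ih => exact .head h2.symm ih

theorem C.swap {p q : ℕ × ℕ} (h : C E p q) : C E p.swap q.swap := by
  induction h with
  | refl => exact .refl
  | tail _ h2 ih => exact .tail ih h2.swap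

theorem C.act {p q : ℕ × ℕ} (h : C E p q) (hp : R E p p) : R E q q := by
  induction h with
  | refl => exact hp
  | tail _ h2 _ => exact h2.act

/-- a number naming the class of a pair -/
noncomputable def key (E : List (List ℕ)) (n x y : ℕ) : ℕ :=
  sInf {k | ∃ u v, C E (x, y) (u, v) ∧ k = u * n + v}

theorem key_eq {n x y u v : ℕ} (h : C E (x, y) (u, v)) : key E n x y = key E n u v := by
  unfold key
  congr 1
  ext k
  constructor
  · rintro ⟨a, b, h1, h2⟩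
    exact ⟨a, b, h.symm.trans h1, h2⟩
  · rintro ⟨a, b, h1, h2⟩
    exact ⟨a, b, h.trans h1, h2⟩

theorem key_mem (n x y : ℕ) : ∃ u v, C E (x, y) (u, v) ∧ key E n x y = u * n + v :=
  Nat.sInf_mem (s := {k | ∃ u v, C E (x, y) (u, v) ∧ k = u * n + v}) ⟨x * n + y, x, y, .refl, rfl⟩

theorem key_le {n x y u v : ℕ} (h : C E (x, y) (u, v)) : key E n x y ≤ u * n + v :=
  Nat.sInf_le ⟨u, v, h, rfl⟩

/-- the orientation -/
def Arr (E : List (List ℕ)) (n x y : ℕ) : Prop := R E (x, y) (x, y) ∧ key E n x y < key E n y x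

theorem Arr.asymm {n x y : ℕ} (h : Arr E n x y) : ¬ Arr E n y x := fun h' => lt_asymm h.2 h'.2

theorem Arr.conn {n x y u v : ℕ} (h : Arr E n x y) (hc : C E (x, y) (u, v)) : Arr E n u v := by
  refine ⟨hc.act h.1, ?_⟩
  rw [← key_eq hc, ← key_eq hc.swap]
  exact h.2

theorem R.lt {n : ℕ} (hE : ∀ A ∈ E, ∀ v ∈ A, v < n) {u v : ℕ} (h : R E (u, v) (u, v)) :
    u < n ∧ v < n := by
  obtain ⟨A, hA, B, hB, h1, -⟩ := h
  exact ⟨hE A hA _ h1.1.1, hE B hB _ h1.2.1⟩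

theorem lex_le {n u v u' v' : ℕ} (hv : v < n) (hv' : v' < n) (h : u * n + v ≤ u' * n + v') : u ≤ u' := by
  by_contra hc
  have : (u' + 1) * n ≤ u * n := Nat.mul_le_mul_right _ (by omega)
  rw [Nat.add_mul, one_mul] at this
  omega

variable {n : ℕ} (hE : ∀ A ∈ E, ∀ v ∈ A, v < n)
  (hno : ∀ x y, R E (x, y) (x, y) → ¬ C E (x, y) (y, x))

include hE hno in
theorem Arr.total {x y : ℕ} (h : R E (x, y) (x, y)) : Arr E n x y ∨ Arr E n y x := by
  rcases lt_trichotomy (key E n x y) (key E n y x) with h1 | h1 | h1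
  · exact Or.inl ⟨h, h1⟩
  · exfalso
    obtain ⟨u, v, h2, h3⟩ := key_mem (E := E) n x y
    obtain ⟨u', v', h2', h3'⟩ := key_mem (E := E) n y x
    have a1 := (h2.act h).lt hE
    have a2 := (h2'.act h.swap).lt hE
    rw [h3, h3'] at h1
    have e1 := lex_le a1.2 a2.2 h1.le
    have e2 := lex_le a2.2 a1.2 h1.ge
    have e3 : u = u' := le_antisymm e1 e2
    subst e3
    have e4 : v = v' := by omega
    subst e4
    exact hno x y h (h2.trans h2'.symm)
  · exact Or.inr ⟨h.swap, h1⟩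

include hE in
theorem Arr.min {x y : ℕ} (h : Arr E n x y) :
    ∃ p q, C E (x, y) (p, q) ∧ p ≤ x ∧ p ≤ y := by
  obtain ⟨u, v, h2, h3⟩ := key_mem (E := E) n x y
  have a1 := (h2.act h.1).lt hE
  have a2 := h.1.lt hE
  refine ⟨u, v, h2, ?_, ?_⟩
  · have := key_le (E := E) (n := n) (x := x) (y := y) .refl
    rw [h3] at this
    exact lex_le a1.2 a2.2 this
  · have := key_le (E := E) (n := n) (x := y) (y := x) .refl
    have h4 := h.2
    rw [h3] at h4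
    exact lex_le a1.2 a2.1 (h4.le.trans this)

theorem lem1 {a b c : ℕ} (h1 : R E (a, b) (a, b)) (h2 : R E (b, c) (b, c))
    (h3 : ¬ R E (a, c) (a, c)) : R E (a, b) (c, b) := by
  obtain ⟨A, hA, B, hB, ⟨⟨a1, a2⟩, a3, a4⟩, -⟩ := h1
  obtain ⟨C, hC, D, hD, ⟨⟨b1, b2⟩, b3, b4⟩, -⟩ := h2
  simp only at a1 a2 a3 a4 b1 b2 b3 b4
  have key : ∀ P ∈ E, ∀ Q ∈ E, a ∈ P → c ∉ P → c ∈ Q → a ∈ Q := by
    intro P hP Q hQ h4 h5 h6
    by_contra h7
    exact h3 ⟨P, hP, Q, hQ, ⟨⟨h4, h7⟩, h6, h5⟩, ⟨h4, h7⟩, h6, h5⟩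
  by_cases hcA : c ∈ A
  · by_cases hcB : c ∈ B
    · by_cases haC : a ∈ C
      · exact absurd (key C hC B hB haC b4 hcB) a2
      · exact ⟨A, hA, C, hC, ⟨⟨a1, haC⟩, b1, a4⟩, ⟨hcA, b4⟩, b1, a4⟩
    · exact ⟨A, hA, B, hB, ⟨⟨a1, a2⟩, a3, a4⟩, ⟨hcA, hcB⟩, a3, a4⟩
  · have haD : a ∈ D := key A hA D hD a1 hcA b3
    by_cases hcB : c ∈ B
    · exact absurd (key A hA B hB a1 hcA hcB) a2
    · exact ⟨D, hD, B, hB, ⟨⟨haD, a2⟩, a3, b2⟩, ⟨b3, hcB⟩, a3, b2⟩

theorem act_of {a b c : ℕ} (h1 : Arr E n a b) (h2 : Arr E n b c) : R E (a, c) (a, c) := by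
  by_contra h3
  exact (h1.conn (.single (lem1 h1.1 h2.1 h3))).asymm h2

/-- in a directed triangle, the third vertex is in both or in none of two sets separating the other
two -/
theorem tri {a b c : ℕ} (h1 : Arr E n a b) (h2 : Arr E n b c) (h3 : Arr E n c a) {A B : List ℕ}
    (hA : A ∈ E) (hB : B ∈ E) (hb : b ∈ A) (hb' : b ∉ B) (hc : c ∈ B) (hc' : c ∉ A) : a ∈ A ↔ a ∈ B := by
  constructor
  · intro ha
    by_contra ha'
    -- (b,c) R (a,c)
    exact (h2.conn (.single ⟨A, hA, B, hB, ⟨⟨hb, hb'⟩, hc, hc'⟩, ⟨ha, ha'⟩, hc, hc'⟩)).asymm h3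
  · intro ha
    by_contra ha'
    -- (b,c) R (b,a)
    exact (h2.conn (.single ⟨A, hA, B, hB, ⟨⟨hb, hb'⟩, hc, hc'⟩, ⟨hb, hb'⟩, ha, ha'⟩)).asymm h1

theorem tri_step {a b c b' c' : ℕ} (h1 : Arr E n a b) (h2 : Arr E n b c) (h3 : Arr E n c a)
    (h : R E (b, c) (b', c')) : Arr E n a b' ∧ Arr E n b' c' ∧ Arr E n c' a := by
  refine ⟨?_, h2.conn (.single h), ?_⟩
  · obtain ⟨A, hA, B, hB, ⟨⟨p1, p2⟩, p3, p4⟩, ⟨q1, q2⟩, q3, q4⟩ := h
    obtain ⟨G, hG, D, hD, ⟨⟨r1, r2⟩, r3, r4⟩, -⟩ := h1.1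
    simp only at p1 p2 p3 p4 q1 q2 q3 q4 r1 r2 r3 r4
    have t := tri h1 h2 h3 hA hB p1 p2 p3 p4
    by_cases ha : a ∈ B
    · -- use `B` and `D`
      have haA := t.2 ha
      have hcD : c ∈ D := (tri h3 h1 h2 hB hD ha r2 r3 p2).1 p3
      by_cases hb : b' ∈ D
      · exact h1.conn (.single ⟨B, hB, D, hD, ⟨⟨ha, r2⟩, r3, p2⟩, ⟨ha, r2⟩, hb, q2⟩)
      · exfalso
        have e1 : R E (b, c) (b', c) := ⟨A, hA, B, hB, ⟨⟨p1, p2⟩, p3, p4⟩, ⟨q1, q2⟩, p3, p4⟩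
        have e2 : R E (b', c) (a, c) := ⟨A, hA, D, hD, ⟨⟨q1, hb⟩, hcD, p4⟩, ⟨haA, r2⟩, hcD, p4⟩
        exact (h2.conn (.tail (.single e1) e2)).asymm h3
    · have haA : a ∉ A := fun h => ha (t.1 h)
      have hcG : c ∉ G := fun h => p4 ((tri h3 h1 h2 hG hA r1 haA p1 r4).1 h)
      by_cases hb : b' ∈ G
      · exfalso
        have e1 : R E (b, c) (b', c) := ⟨A, hA, B, hB, ⟨⟨p1, p2⟩, p3, p4⟩, ⟨q1, q2⟩, p3, p4⟩
        have e2 : R E (b', c) (a, c) := ⟨G, hG, B, hB, ⟨⟨hb, q2⟩, p3, hcG⟩, ⟨r1, ha⟩, p3, hcG⟩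
        exact (h2.conn (.tail (.single e1) e2)).asymm h3
      · exact h1.conn (.single ⟨G, hG, A, hA, ⟨⟨r1, haA⟩, p1, r4⟩, ⟨r1, haA⟩, q1, hb⟩)
  · obtain ⟨A, hA, B, hB, ⟨⟨p1, p2⟩, p3, p4⟩, ⟨q1, q2⟩, q3, q4⟩ := h
    obtain ⟨G, hG, D, hD, ⟨⟨r1, r2⟩, r3, r4⟩, -⟩ := h3.1
    -- `c ∈ G \ D`, `a ∈ D \ G`
    simp only at p1 p2 p3 p4 q1 q2 q3 q4 r1 r2 r3 r4
    have t := tri h1 h2 h3 hA hB p1 p2 p3 p4
    by_cases ha : a ∈ A
    · have haB := t.1 ha
      have hbG : b ∈ G := (tri h2 h3 h1 hG hA r1 p4 ha r4).2 p1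
      by_cases hc : c' ∈ G
      · exact h3.conn (.single ⟨G, hG, A, hA, ⟨⟨r1, p4⟩, ha, r4⟩, ⟨hc, q4⟩, ha, r4⟩)
      · exfalso
        have e1 : R E (b, c) (b, c') := ⟨A, hA, B, hB, ⟨⟨p1, p2⟩, p3, p4⟩, ⟨p1, p2⟩, q3, q4⟩
        have e2 : R E (b, c') (b, a) := ⟨G, hG, B, hB, ⟨⟨hbG, p2⟩, q3, hc⟩, ⟨hbG, p2⟩, haB, r4⟩
        exact (h2.conn (.tail (.single e1) e2)).asymm h1
    · have haB : a ∉ B := fun h => ha (t.2 h)
      have hbD : b ∉ D := fun h => p2 ((tri h2 h3 h1 hB hD p3 r2 r3 haB).2 h)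
      by_cases hc : c' ∈ D
      · exfalso
        have e1 : R E (b, c) (b, c') := ⟨A, hA, B, hB, ⟨⟨p1, p2⟩, p3, p4⟩, ⟨p1, p2⟩, q3, q4⟩
        have e2 : R E (b, c') (b, a) := ⟨A, hA, D, hD, ⟨⟨p1, hbD⟩, hc, q4⟩, ⟨p1, hbD⟩, r3, ha⟩
        exact (h2.conn (.tail (.single e1) e2)).asymm h1
      · exact h3.conn (.single ⟨B, hB, D, hD, ⟨⟨p3, r2⟩, r3, haB⟩, ⟨q3, hc⟩, r3, haB⟩)

theorem tri_conn {a b c : ℕ} {q : ℕ × ℕ} (h1 : Arr E n a b) (h2 : Arr E n b c) (h3 : Arr E n c a)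
    (h : C E (b, c) q) : Arr E n a q.1 ∧ Arr E n q.1 q.2 ∧ Arr E n q.2 a := by
  induction h with
  | refl => exact ⟨h1, h2, h3⟩
  | tail _ h ih => exact tri_step ih.1 ih.2.1 ih.2.2 h

include hE in
theorem no_tri {a b c : ℕ} (h1 : Arr E n a b) (h2 : Arr E n b c) (h3 : Arr E n c a) : False := by
  classical
  have hex : ∃ m, ∃ b c, Arr E n m b ∧ Arr E n b c ∧ Arr E n c m := ⟨a, b, c, h1, h2, h3⟩
  obtain ⟨b, c, g1, g2, g3⟩ := Nat.find_spec hex
  set m := Nat.find hex with hm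
  obtain ⟨p, q, hc, -, hp⟩ := Arr.min hE g3
  obtain ⟨k1, k2, k3⟩ := tri_conn g2 g3 g1 hc
  simp only at k1 k2 k3
  have : m ≤ p := Nat.find_min' hex ⟨q, b, k2, k3, k1⟩
  have e : p = m := le_antisymm hp this
  rw [e] at k1
  exact g1.asymm k1

include hE hno in
theorem Arr.trans {a b c : ℕ} (h1 : Arr E n a b) (h2 : Arr E n b c) : Arr E n a c := by
  rcases Arr.total hE hno (act_of h1 h2) with h | h
  · exact h
  · exact (no_tri hE h1 h2 h).elim

/-- **the criterion** -/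
theorem free3_iff (hE : ∀ A ∈ E, ∀ v ∈ A, v < n) :
    FreeV ℕ 3 (List.range n) E ↔ ∀ x y, R E (x, y) (x, y) → ¬ C E (x, y) (y, x) := by
  constructor
  · rintro ⟨pos, h1, h2⟩
    have key : ∀ A ∈ E, ∀ B ∈ E, ∀ p q, Sp A B p → Sp A B q → pos p.1 < pos p.2 → pos q.1 < pos q.2 := by
      have base : ∀ A ∈ E, ∀ B ∈ E, ∀ a b a', a ∈ A → a ∉ B → b ∈ B → b ∉ A → a' ∈ A → a' ∉ B →
          pos a < pos b → pos b < pos a' → False := by
        intro A hA B hB a b a' q1 q2 q3 q4 q5 q6 q7 q8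
        refine h2 A hA B hB ⟨fun i => if i = 0 then a else if i = 1 then b else a', ?_, ?_⟩
        · intro i hi
          interval_cases i
          · simp [q1, q2]
          · simp [q3, q4]
          · simp [q5, q6]
        · intro i j hij hj
          interval_cases j
          · omega
          · interval_cases i
            simpa using q7
          · interval_cases i
            · simpa using q7.trans q8
            · simpa using q8
      have ne : ∀ A ∈ E, ∀ B ∈ E, ∀ u v, u ∈ A → v ∈ B → v ∉ A → pos u ≠ pos v := by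
        intro A hA B hB u v q1 q2 q3 he
        have := h1 (by simpa using hE A hA u q1) (by simpa using hE B hB v q2) he
        rw [this] at q1
        exact q3 q1
      rintro A hA B hB ⟨x, y⟩ ⟨u, v⟩ ⟨⟨a1, a2⟩, a3, a4⟩ ⟨⟨b1, b2⟩, b3, b4⟩ hlt
      simp only at a1 a2 a3 a4 b1 b2 b3 b4 hlt ⊢
      have huy : pos u < pos y := by
        rcases lt_trichotomy (pos u) (pos y) with h | h | h
        · exact h
        · exact absurd h (ne A hA B hB u y b1 a3 a4)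
        · exact (base A hA B hB x y u a1 a2 a3 a4 b1 b2 hlt h).elim
      rcases lt_trichotomy (pos u) (pos v) with h | h | h
      · exact h
      · exact absurd h (ne A hA B hB u v b1 b3 b4)
      · exact (base B hB A hA v u y b3 b4 b1 b2 a3 a4 h huy).elim
    have key2 : ∀ p q, C E p q → pos p.1 < pos p.2 → pos q.1 < pos q.2 := by
      intro p q h
      induction h with
      | refl => exact id
      | tail _ h ih =>
        obtain ⟨A, hA, B, hB, h3, h4⟩ := h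
        exact fun h => key A hA B hB _ _ h3 h4 (ih h)
    intro x y hxy hc
    have hne : pos x ≠ pos y := by
      obtain ⟨A, hA, B, hB, ⟨⟨a1, a2⟩, a3, a4⟩, -⟩ := hxy
      intro he
      have := h1 (by simpa using hE A hA x a1) (by simpa using hE B hB y a3) he
      simp only at a1 a4
      rw [this] at a1
      exact a4 a1
    rcases lt_or_gt_of_ne hne with h | h
    · exact absurd (key2 _ _ hc h) (by simp only; omega)
    · exact absurd (key2 _ _ hc.symm h) (by simp only; omega)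
  · intro hno
    classical
    refine FreeV.rank (L := ℕ ×ₗ ℕ) (fun A hA v hv => by simpa using hE A hA v hv) ?_
    let cnt : ℕ → ℕ := fun v => ((Finset.range n).filter fun u => Arr E n u v).card
    have hcnt : ∀ u v, Arr E n u v → cnt u < cnt v := by
      intro u v h
      apply Finset.card_lt_card
      rw [Finset.ssubset_iff_of_subset]
      · refine ⟨u, ?_, ?_⟩
        · simp [h, (h.1.lt hE).1]
        · simp only [Finset.mem_filter, Finset.mem_range, not_and]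
          exact fun _ h' => h'.asymm h'
      · intro w hw
        simp only [Finset.mem_filter, Finset.mem_range] at hw ⊢
        exact ⟨hw.1, Arr.trans hE hno hw.2 h⟩
    refine ⟨fun v => toLex (cnt v, v), ?_, ?_⟩
    · intro u _ v _ h
      simpa using congrArg (fun z => (ofLex z).2) h
    · rintro A hA B hB ⟨x, hx1, hx2⟩
      have a0 := hx1 0 (by omega)
      have a1 := hx1 1 (by omega)
      have a2 := hx1 2 (by omega)
      simp at a0 a1 a2
      have l1 := hx2 0 1 (by omega) (by omega)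
      have l2 := hx2 1 2 (by omega) (by omega)
      simp only [Prod.Lex.toLex_lt_toLex] at l1 l2
      have r1 : R E (x 0, x 1) (x 2, x 1) := ⟨A, hA, B, hB, ⟨⟨a0.1, a0.2⟩, a1.1, a1.2⟩, ⟨a2.1, a2.2⟩, a1.1, a1.2⟩
      rcases Arr.total hE hno r1.symm.act with h | h
      · have := hcnt _ _ (h.conn (.single r1))
        omega
      · have := hcnt _ _ h
        omega

end

end Pool.Agent.Q9h3.AB
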