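import Pool.Agent.Q9h3.AB.Gen

/-!
# Cyclic orders and crossings
-/

set_option autoImplicit false

namespace Pool.Agent.Q9h3.AB

/-- `p q` and `r s` cross -/
def Cr (p q r s : ℕ) : Prop :=
  (p < r ∧ r < q ∧ q < s) ∨ (p < s ∧ s < q ∧ q < r) ∨ (q < r ∧ r < p ∧ p < s) ∨
  (q < s ∧ s < p ∧ p < r) ∨ (r < p ∧ p < s ∧ s < q) ∨ (r < q ∧ q < s ∧ s < p) ∨
  (s < p ∧ p < r ∧ r < q) ∨ (s < q ∧ q < r ∧ r < p)

/-- the cyclic order -/
def Cyc (x y z : ℕ) : Prop := (x < y ∧ y < z) ∨ (y < z ∧ z < x) ∨ (z < x ∧ x < y)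

theorem cr_iff {p q r s : ℕ} (h1 : p ≠ q) (h2 : p ≠ r) (h3 : p ≠ s) (h4 : q ≠ r) (h5 : q ≠ s)
    (h6 : r ≠ s) : Cr p q r s ↔ ¬ (Cyc p q r ↔ Cyc p q s) := by
  unfold Cr Cyc
  omega

/-- rotate the numbers below `M` so that `c` becomes the least -/
def rot (c M x : ℕ) : ℕ := if x < c then x + M else x

theorem cyc_rot {c M x y z : ℕ} (hx : x < M) (hy : y < M) (hz : z < M) :
    Cyc (rot c M x) (rot c M y) (rot c M z) ↔ Cyc x y z := by
  unfold Cyc rot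
  split_ifs <;> omega

theorem rot_ne {c M x y : ℕ} (hx : x < M) (hy : y < M) (h : x ≠ y) : rot c M x ≠ rot c M y := by
  unfold rot
  split_ifs <;> omega

theorem cr_rot {c M p q r s : ℕ} (hp : p < M) (hq : q < M) (hr : r < M) (hs : s < M)
    (h1 : p ≠ q) (h2 : p ≠ r) (h3 : p ≠ s) (h4 : q ≠ r) (h5 : q ≠ s) (h6 : r ≠ s) :
    Cr (rot c M p) (rot c M q) (rot c M r) (rot c M s) ↔ Cr p q r s := by
  rw [cr_iff h1 h2 h3 h4 h5 h6, cr_iff (rot_ne hp hq h1) (rot_ne hp hr h2) (rot_ne hp hs h3)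
    (rot_ne hq hr h4) (rot_ne hq hs h5) (rot_ne hr hs h6), cyc_rot hp hq hr, cyc_rot hp hq hs]

theorem rot_self {c M : ℕ} : rot c M c = c := by simp [rot]

theorem rot_gt {c M x : ℕ} (hc : c < M) (h : x ≠ c) : c < rot c M x := by
  unfold rot
  split_ifs <;> omega

/-- with the least point first, crossing means separation by a threshold -/
theorem sep {c u c' w : ℕ} (h1 : c < u) (h2 : c < c') (h3 : c < w) (h4 : u ≠ c') (h5 : u ≠ w)
    (h6 : c' ≠ w) (h : ¬ Cr c u c' w) : (u < c' ↔ u < w) := by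
  unfold Cr at h
  omega

/-- the order of two copies -/
theorem pairo {c u v c' u' v' : ℕ} (hu : c < u) (hv : c < v) (hc' : c < c') (hu' : c < u') (hv' : c < v')
    (huv : u ≠ v) (huv' : u' ≠ v')
    (n1 : u ≠ c') (n2 : u ≠ u') (n3 : u ≠ v') (n4 : c' ≠ u') (n5 : c' ≠ v') (n6 : v ≠ c')
    (n7 : v ≠ u') (n8 : v ≠ v')
    (a1 : (u < c' ↔ u < u')) (a2 : (u < c' ↔ u < v')) (a3 : (v < c' ↔ v < u')) (a4 : (v < c' ↔ v < v'))
    (m : ¬ Cr v u' u v') :
    u' < v' ↔ ((u < v ∧ (u < c' ↔ v < c')) ∨ (¬ u < c' ∧ v < c')) := by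
  have A : ¬ (u < c' ∧ v < c' ∧ u < v ∧ v' < u') := fun h => m (by
    unfold Cr; right; right; right; right; left; clear m; omega)
  have B : ¬ (u < c' ∧ v < c' ∧ v < u ∧ u' < v') := fun h => m (by
    unfold Cr; left; clear m; omega)
  have C : ¬ (¬ u < c' ∧ ¬ v < c' ∧ u < v ∧ v' < u') := fun h => m (by
    unfold Cr; right; right; right; right; right; right; right; clear m; omega)
  have D : ¬ (¬ u < c' ∧ ¬ v < c' ∧ v < u ∧ u' < v') := fun h => m (by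
    unfold Cr; right; right; right; left; clear m; omega)
  have F : ¬ (u < c' ∧ ¬ v < c' ∧ u' < v') := fun h => m (by
    unfold Cr; right; right; right; right; right; left; clear m; omega)
  have G : ¬ (¬ u < c' ∧ v < c' ∧ v' < u') := fun h => m (by
    unfold Cr; right; left; clear m; omega)
  clear m
  by_cases h1 : u < c' <;> by_cases h2 : v < c' <;>
    simp only [h1, h2, iff_self, and_true, true_and, not_true_eq_false, not_false_eq_true, false_and,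
      and_false, or_false, iff_true, iff_false, or_true, false_or] at * <;> omega

theorem cyc_step0 {c x y z c' x' y' z' : ℕ} (hx : c < x) (hy : c < y) (hz : c < z)
    (hc' : c < c') (hx' : c < x') (hy' : c < y') (hz' : c < z')
    (hd : [x, y, z, c', x', y', z'].Nodup)
    (s1 : ¬ Cr c x c' x') (s2 : ¬ Cr c x c' y') (s3 : ¬ Cr c x c' z')
    (s4 : ¬ Cr c y c' x') (s5 : ¬ Cr c y c' y') (s6 : ¬ Cr c y c' z')
    (s7 : ¬ Cr c z c' x') (s8 : ¬ Cr c z c' y') (s9 : ¬ Cr c z c' z')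
    (m1 : ¬ Cr y x' x y') (m2 : ¬ Cr z x' x z') (m3 : ¬ Cr z y' y z')
    : Cyc x y z ↔ Cyc x' y' z' := by
  simp only [List.nodup_cons, List.mem_cons, List.not_mem_nil, or_false, not_or, not_false_eq_true,
    List.nodup_nil, and_true] at hd
  obtain ⟨⟨d1, d2, d3, d4, d5, d6⟩, ⟨d7, d8, d9, d10, d11⟩, ⟨d12, d13, d14, d15⟩, ⟨d16, d17, d18⟩,
    ⟨d19, d20⟩, d21⟩ := hd
  have t1 := sep hx hc' hx' d3 d4 d16 s1
  have t2 := sep hx hc' hy' d3 d5 d17 s2
  have t3 := sep hx hc' hz' d3 d6 d18 s3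
  have t4 := sep hy hc' hx' d8 d9 d16 s4
  have t5 := sep hy hc' hy' d8 d10 d17 s5
  have t6 := sep hy hc' hz' d8 d11 d18 s6
  have t7 := sep hz hc' hx' d12 d13 d16 s7
  have t8 := sep hz hc' hy' d12 d14 d17 s8
  have t9 := sep hz hc' hz' d12 d15 d18 s9
  have p1 := pairo hx hy hc' hx' hy' d1 d19 d3 d4 d5 d16 d17 d8 d9 d10 t1 t2 t4 t5 m1
  have p2 := pairo hx hz hc' hx' hz' d2 d20 d3 d4 d6 d16 d18 d12 d13 d15 t1 t3 t7 t9 m2
  have p3 := pairo hy hz hc' hy' hz' d7 d21 d8 d10 d11 d17 d18 d12 d14 d15 t5 t6 t8 t9 m3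
  have p2' : z' < x' ↔ ¬ (x' < z') := by omega
  unfold Cyc
  rw [p2', p1, p2, p3]
  clear * - d1 d2 d3 d7 d8 d12
  by_cases h1 : x < c' <;> by_cases h2 : y < c' <;> by_cases h3 : z < c' <;>
    simp only [h1, h2, h3, iff_self, and_true, true_and, not_true_eq_false, not_false_eq_true, false_and,
      and_false, or_false, iff_true, iff_false, true_iff, false_iff, or_true, false_or] <;> omega

/-- **the step**: two neighbouring copies have the same cyclic order -/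
theorem cyc_step {c x y z c' x' y' z' : ℕ}
    (hd : [c, x, y, z, c', x', y', z'].Nodup)
    (s1 : ¬ Cr c x c' x') (s2 : ¬ Cr c x c' y') (s3 : ¬ Cr c x c' z')
    (s4 : ¬ Cr c y c' x') (s5 : ¬ Cr c y c' y') (s6 : ¬ Cr c y c' z')
    (s7 : ¬ Cr c z c' x') (s8 : ¬ Cr c z c' y') (s9 : ¬ Cr c z c' z')
    (m1 : ¬ Cr y x' x y') (m2 : ¬ Cr z x' x z') (m3 : ¬ Cr z y' y z') :
    Cyc x y z ↔ Cyc x' y' z' := by
  obtain ⟨M, hM⟩ : ∃ M, ∀ v ∈ [c, x, y, z, c', x', y', z'], v < M :=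
    ⟨c + x + y + z + c' + x' + y' + z' + 1, by
      intro v hv
      simp only [List.mem_cons, List.not_mem_nil, or_false] at hv
      omega⟩
  simp only [List.mem_cons, List.not_mem_nil, or_false, forall_eq_or_imp, forall_eq] at hM
  obtain ⟨M1, M2, M3, M4, M5, M6, M7, M8⟩ := hM
  have hd' := hd
  simp only [List.nodup_cons, List.mem_cons, List.not_mem_nil, or_false, not_or, not_false_eq_true,
    List.nodup_nil, and_true] at hd
  obtain ⟨⟨e1, e2, e3, e4, e5, e6, e7⟩, ⟨d1, d2, d3, d4, d5, d6⟩, ⟨d7, d8, d9, d10, d11⟩,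
    ⟨d12, d13, d14, d15⟩, ⟨d16, d17, d18⟩, ⟨d19, d20⟩, d21⟩ := hd
  rw [← cyc_rot (c := c) M2 M3 M4, ← cyc_rot (c := c) M6 M7 M8]
  refine cyc_step0 (c := c) (c' := rot c M c') (rot_gt M1 (Ne.symm e1)) (rot_gt M1 (Ne.symm e2)) (rot_gt M1 (Ne.symm e3))
    (rot_gt M1 (Ne.symm e4)) (rot_gt M1 (Ne.symm e5)) (rot_gt M1 (Ne.symm e6)) (rot_gt M1 (Ne.symm e7))
    ?_ ?_ ?_ ?_ ?_ ?_ ?_ ?_ ?_ ?_ ?_ ?_ ?_
  · have : ([x, y, z, c', x', y', z'].map (rot c M)).Nodup := by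
      refine List.Nodup.map_on ?_ (List.nodup_cons.1 hd').2
      intro a ha b hb hab
      by_contra hne
      refine rot_ne ?_ ?_ hne hab
      · simp only [List.mem_cons, List.not_mem_nil, or_false] at ha; omega
      · simp only [List.mem_cons, List.not_mem_nil, or_false] at hb; omega
    simpa using this
  · have := (cr_rot (c := c) M1 M2 M5 M6 e1 e4 e5 d3 d4 d16).not.2 s1; rwa [rot_self] at this
  · have := (cr_rot (c := c) M1 M2 M5 M7 e1 e4 e6 d3 d5 d17).not.2 s2; rwa [rot_self] at this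
  · have := (cr_rot (c := c) M1 M2 M5 M8 e1 e4 e7 d3 d6 d18).not.2 s3; rwa [rot_self] at this
  · have := (cr_rot (c := c) M1 M3 M5 M6 e2 e4 e5 d8 d9 d16).not.2 s4; rwa [rot_self] at this
  · have := (cr_rot (c := c) M1 M3 M5 M7 e2 e4 e6 d8 d10 d17).not.2 s5; rwa [rot_self] at this
  · have := (cr_rot (c := c) M1 M3 M5 M8 e2 e4 e7 d8 d11 d18).not.2 s6; rwa [rot_self] at this
  · have := (cr_rot (c := c) M1 M4 M5 M6 e3 e4 e5 d12 d13 d16).not.2 s7; rwa [rot_self] at this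
  · have := (cr_rot (c := c) M1 M4 M5 M7 e3 e4 e6 d12 d14 d17).not.2 s8; rwa [rot_self] at this
  · have := (cr_rot (c := c) M1 M4 M5 M8 e3 e4 e7 d12 d15 d18).not.2 s9; rwa [rot_self] at this
  · exact (cr_rot (c := c) M3 M6 M2 M7 d9 (Ne.symm d1) d10 (Ne.symm d4) d19 d5).not.2 m1
  · exact (cr_rot (c := c) M4 M6 M2 M8 d13 (Ne.symm d2) d15 (Ne.symm d4) d20 d6).not.2 m2
  · exact (cr_rot (c := c) M4 M7 M3 M8 d14 (Ne.symm d7) d15 (Ne.symm d10) d21 d11).not.2 m3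

end Pool.Agent.Q9h3.AB
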