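import Pool.Agent.Lib.lead.CXBase

/-!
# Alternation-free hypergraphs: the decision problem
-/

set_option autoImplicit false

namespace Pool.Agent.Q9h3.AB

/-- A hypergraph, given explicitly: the number of vertices in unary (the vertices are `0, 1, …`) and
the list of its hyperedges, each of them given as the list of its vertices. -/
abbrev Hyp := List Unit × List (List ℕ)

/-- the number of vertices -/
abbrev Hyp.n (H : Hyp) : ℕ := H.1.length

/-- the hyperedges -/
abbrev Hyp.E (H : Hyp) : List (List ℕ) := H.2

/-- The input is well-formed: every hyperedge is an increasing list of vertices, and no hyperedge is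
listed twice. -/
def Valid (H : Hyp) : Prop :=
  (∀ A ∈ H.E, A.Pairwise (· < ·) ∧ ∀ v ∈ A, v < H.n) ∧ H.E.Nodup

/-- In the order of the vertices by `pos`, there are `t` elements `x₁ < x₂ < … < x_t` with
`x_i ∈ A \ B` for odd `i` and `x_i ∈ B \ A` for even `i` (here `x_i` is `x (i - 1)`). -/
def HasAlt (t : ℕ) (pos : ℕ → ℕ) (A B : List ℕ) : Prop :=
  ∃ x : Fin t → ℕ, StrictMono (fun i => pos (x i)) ∧
    ∀ i : Fin t, if Even (i : ℕ) then x i ∈ A ∧ x i ∉ B else x i ∈ B ∧ x i ∉ A

/-- Some linear order of the vertices (`u` before `v` when `pos u < pos v`) has no two hyperedges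
forming an alternating sequence of length `t`. -/
def AltFree (t : ℕ) (H : Hyp) : Prop :=
  ∃ pos : ℕ → ℕ, Set.InjOn pos {v | v < H.n} ∧ ∀ A ∈ H.E, ∀ B ∈ H.E, ¬ HasAlt t pos A B

end Pool.Agent.Q9h3.AB
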