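import Pool.Agent.Q9h3.AB.Defs

/-!
# Alternation-free hypergraphs over any vertex type
-/

set_option autoImplicit false

namespace Pool.Agent.Q9h3.AB

open Pool.Agent.Lib.CX

/-- alternation for predicates and positions in any order -/
def AltG {V L : Type} [LT L] (t : ℕ) (pos : V → L) (A B : V → Prop) : Prop :=
  ∃ x : ℕ → V, (∀ i, i < t → if Even i then A (x i) ∧ ¬ B (x i) else B (x i) ∧ ¬ A (x i)) ∧
    ∀ i j, i < j → j < t → pos (x i) < pos (x j)

theorem hasAlt_iff {t : ℕ} {pos : ℕ → ℕ} {A B : List ℕ} :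
    HasAlt t pos A B ↔ AltG t pos (· ∈ A) (· ∈ B) := by
  constructor
  · rintro ⟨x, h1, h2⟩
    refine ⟨fun i => if h : i < t then x ⟨i, h⟩ else 0, fun i hi => ?_, fun i j hij hj => ?_⟩
    · simpa [hi] using h2 ⟨i, hi⟩
    · simp only [hj, hij.trans hj, dite_true]
      exact h1 (by simpa using hij)
  · rintro ⟨x, h1, h2⟩
    refine ⟨fun i => x i, fun i j hij => h2 i j hij j.2, fun i => h1 i i.2⟩

/-- freeness over any vertex type and with positions in any linear order -/
def FreeV {V : Type} (L : Type) [LinearOrder L] (t : ℕ) (vs : List V) (es : List (List V)) : Prop :=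
  ∃ pos : V → L, Set.InjOn pos {v | v ∈ vs} ∧ ∀ A ∈ es, ∀ B ∈ es, ¬ AltG t pos (· ∈ A) (· ∈ B)

theorem altG_mem {V L : Type} [LT L] {t : ℕ} {pos : V → L} {A B : V → Prop} {x : ℕ → V}
    (h : ∀ i, i < t → if Even i then A (x i) ∧ ¬ B (x i) else B (x i) ∧ ¬ A (x i)) {S : V → Prop}
    (hA : ∀ v, A v → S v) (hB : ∀ v, B v → S v) : ∀ i, i < t → S (x i) := by
  intro i hi
  have := h i hi
  split at this
  · exact hA _ this.1
  · exact hB _ this.1

/-- positions may be taken in the natural numbers -/
theorem FreeV.rank {V L : Type} [DecidableEq V] [LinearOrder L] {t : ℕ} {vs : List V}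
    {es : List (List V)} (hv : ∀ A ∈ es, ∀ v ∈ A, v ∈ vs) (h : FreeV L t vs es) :
    FreeV ℕ t vs es := by
  obtain ⟨q, h1, h2⟩ := h
  let pos : V → ℕ := fun v => (vs.toFinset.filter fun u => q u < q v).card
  have key : ∀ u ∈ vs, ∀ v, q u < q v → pos u < pos v := by
    intro u hu v huv
    apply Finset.card_lt_card
    rw [Finset.ssubset_iff_of_subset]
    · refine ⟨u, by simp [hu, huv], by simp⟩
    · intro w hw
      simp only [Finset.mem_filter, List.mem_toFinset] at hw ⊢
      exact ⟨hw.1, hw.2.trans huv⟩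
  have key2 : ∀ u ∈ vs, ∀ v ∈ vs, pos u < pos v → q u < q v := by
    intro u hu v hv h
    rcases lt_trichotomy (q u) (q v) with h' | h' | h'
    · exact h'
    · rw [h1 hu hv h'] at h; exact absurd h (lt_irrefl _)
    · exact absurd (key v hv u h') (by omega)
  refine ⟨pos, ?_, ?_⟩
  · intro u hu v hv h
    rcases lt_trichotomy (q u) (q v) with h' | h' | h'
    · exact absurd (key u hu v h') (by omega)
    · exact h1 hu hv h'
    · exact absurd (key v hv u h') (by omega)
  · rintro A hA B hB ⟨x, hx1, hx2⟩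
    have hm := altG_mem (L := L) (pos := q) hx1 (S := (· ∈ vs)) (hv A hA) (hv B hB)
    exact h2 A hA B hB ⟨x, hx1, fun i j hij hj =>
      key2 _ (hm i (hij.trans hj)) _ (hm j hj) (hx2 i j hij hj)⟩

/-- the hypergraph with its vertices renumbered -/
def inst {V : Type} [DecidableEq V] (p : List V × List (List V)) : Hyp :=
  (p.1.map fun _ => (), (p.2.map fun A =>
    (List.range p.1.length).filter fun i => decide (i ∈ A.map fun v => p.1.idxOf v)).dedup)

theorem valid_inst {V : Type} [DecidableEq V] (p : List V × List (List V)) : Valid (inst p) := by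
  refine ⟨fun A hA => ?_, List.nodup_dedup _⟩
  rw [Hyp.E, inst, List.mem_dedup, List.mem_map] at hA
  obtain ⟨B, -, rfl⟩ := hA
  refine ⟨(List.pairwise_lt_range).filter _, fun v hv => ?_⟩
  rw [Hyp.n, inst, List.length_map]
  exact List.mem_range.1 (List.mem_filter.1 hv).1

@[fun_prop] theorem PT.inst {α V : Type} [Enc α] [DecidableEq V] [Enc V] {f : α → List V × List (List V)}
    (hf : PT f) : PT (fun a => inst (f a)) := by
  unfold AB.inst
  fun_prop

theorem inst_iff {V : Type} [DecidableEq V] [Inhabited V] {p : List V × List (List V)} {t : ℕ}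
    (hn : p.1.Nodup) (hv : ∀ A ∈ p.2, ∀ v ∈ A, v ∈ p.1) :
    AltFree t (inst p) ↔ FreeV ℕ t p.1 p.2 := by
  obtain ⟨vs, es⟩ := p
  simp only at hn hv
  have hE : ∀ A, A ∈ (inst (vs, es)).E ↔ ∃ B ∈ es,
      ((List.range vs.length).filter fun i => decide (i ∈ B.map fun v => vs.idxOf v)) = A := by
    intro A
    rw [Hyp.E, inst, List.mem_dedup, List.mem_map]
  have hN : (inst (vs, es)).n = vs.length := by simp [Hyp.n, inst]
  have hmem : ∀ B ∈ es, ∀ v ∈ vs, (vs.idxOf v ∈ (List.range vs.length).filter fun i =>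
      decide (i ∈ B.map fun v => vs.idxOf v)) ↔ v ∈ B := by
    intro B hB v hvv
    simp only [List.mem_filter, List.mem_range, List.mem_map, decide_eq_true_eq]
    constructor
    · rintro ⟨-, w, hw, hwv⟩
      rw [← (List.idxOf_inj (hv B hB w hw)).1 hwv]
      exact hw
    · intro h
      exact ⟨List.idxOf_lt_length_of_mem hvv, v, h, rfl⟩
  have hmem2 : ∀ B ∈ es, ∀ i, (i ∈ (List.range vs.length).filter fun i =>
      decide (i ∈ B.map fun v => vs.idxOf v)) ↔ (i < vs.length ∧ vs.getD i default ∈ B) := by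
    intro B hB i
    by_cases hi : i < vs.length
    · have h1 : vs.getD i default ∈ vs := by
        rw [List.getD_eq_getElem _ _ hi]; exact List.getElem_mem hi
      have h2 : vs.idxOf (vs.getD i default) = i := by
        rw [List.getD_eq_getElem _ _ hi]; exact hn.idxOf_getElem i hi
      have h3 := hmem B hB _ h1
      rw [h2] at h3
      rw [h3]; simp [hi]
    · simp [hi]
  constructor
  · rintro ⟨pos, h1, h2⟩
    rw [hN] at h1
    refine ⟨fun v => pos (vs.idxOf v), ?_, ?_⟩
    · intro u hu v hvv h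
      exact (List.idxOf_inj hu).1 (h1 (List.idxOf_lt_length_of_mem hu) (List.idxOf_lt_length_of_mem hvv) h)
    · rintro A hA B hB ⟨x, hx1, hx2⟩
      refine h2 _ ((hE _).2 ⟨A, hA, rfl⟩) _ ((hE _).2 ⟨B, hB, rfl⟩) (hasAlt_iff.2 ⟨fun i => vs.idxOf (x i), ?_, hx2⟩)
      have hm := altG_mem (L := ℕ) (pos := fun v => pos (vs.idxOf v)) hx1 (S := (· ∈ vs)) (hv A hA) (hv B hB)
      intro i hi
      have := hx1 i hi
      dsimp only
      rw [hmem A hA _ (hm i hi), hmem B hB _ (hm i hi)]
      exact this
  · rintro ⟨pos, h1, h2⟩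
    refine ⟨fun i => pos (vs.getD i default), ?_, ?_⟩
    · rw [hN]
      intro i hi j hj h
      simp only [Set.mem_ofPred_eq] at hi hj
      have e1 : vs.getD i default = vs[i] := List.getD_eq_getElem _ _ hi
      have e2 : vs.getD j default = vs[j] := List.getD_eq_getElem _ _ hj
      dsimp only at h
      rw [e1, e2] at h
      have := h1 (List.getElem_mem hi) (List.getElem_mem hj) h
      exact (hn.getElem_inj_iff).1 this
    · intro A hA B hB h
      obtain ⟨A', hA', rfl⟩ := (hE A).1 hA
      obtain ⟨B', hB', rfl⟩ := (hE B).1 hB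
      obtain ⟨x, hx1, hx2⟩ := hasAlt_iff.1 h
      refine h2 A' hA' B' hB' ⟨fun i => vs.getD (x i) default, ?_, hx2⟩
      intro i hi
      have := hx1 i hi
      dsimp only at this ⊢
      rw [hmem2 A' hA', hmem2 B' hB'] at this
      split
      · rename_i he
        simp only [he, if_true] at this
        exact ⟨this.1.2, fun h => this.2 ⟨this.1.1, h⟩⟩
      · rename_i he
        simp only [he, if_false] at this
        exact ⟨this.1.2, fun h => this.2 ⟨this.1.1, h⟩⟩

/-- a valid hypergraph on the natural numbers, seen as a hypergraph over a type -/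
theorem altFree_iff {H : Hyp} {t : ℕ} :
    AltFree t H ↔ FreeV ℕ t (List.range H.n) H.E := by
  simp only [AltFree, FreeV, hasAlt_iff, List.mem_range]

end Pool.Agent.Q9h3.AB
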