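import Pool.Agent.Q9h3.AB.Comp4

/-!
# ABAB-freeness is NP-hard
-/

set_option autoImplicit false
set_option synthInstance.maxSize 2000

namespace Pool.Agent.Q9h3.AB

open Pool.Agent.Lib.CX

/-- the conditions of a formula: `0` is the point at infinity, `1` is the origin, `2 + i` is the
variable `i`, and `2 + 3 m + j` is the auxiliary element of the clause `j` -/
def qs (φ : List (T3 ℕ)) : List Quad :=
  (List.range φ.length).flatMap fun j =>
    [((0, 2 + (φ.getD j (0, 0, 0)).1), (2 + 3 * φ.length + j, 2 + (φ.getD j (0, 0, 0)).2.1)),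
     ((0, 2 + (φ.getD j (0, 0, 0)).2.1), (2 + (φ.getD j (0, 0, 0)).1, 2 + 3 * φ.length + j)),
     ((0, 2 + 3 * φ.length + j), (1, 2 + (φ.getD j (0, 0, 0)).2.2)),
     ((0, 2 + (φ.getD j (0, 0, 0)).2.2), (2 + 3 * φ.length + j, 1))]

/-- the instance of the non-crossing problem -/
def nci (φ : List (T3 ℕ)) : List Unit × List Quad := (List.replicate (2 + 4 * φ.length) (), qs φ)

theorem nci_pt : PT nci := by
  unfold nci qs
  fun_prop

theorem mem_qs {φ : List (T3 ℕ)} {q : Quad} : q ∈ qs φ ↔ ∃ j, ∃ hj : j < φ.length,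
    q = ((0, 2 + (φ[j]).1), (2 + 3 * φ.length + j, 2 + (φ[j]).2.1)) ∨
    q = ((0, 2 + (φ[j]).2.1), (2 + (φ[j]).1, 2 + 3 * φ.length + j)) ∨
    q = ((0, 2 + 3 * φ.length + j), (1, 2 + (φ[j]).2.2)) ∨
    q = ((0, 2 + (φ[j]).2.2), (2 + 3 * φ.length + j, 1)) := by
  unfold qs
  simp only [List.mem_flatMap, List.mem_range, List.mem_cons, List.not_mem_nil, or_false]
  constructor
  · rintro ⟨j, hj, h⟩
    rw [List.getD_eq_getElem _ _ hj] at h
    exact ⟨j, hj, h⟩
  · rintro ⟨j, hj, h⟩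
    rw [← List.getD_eq_getElem _ (0, 0, 0) hj] at h
    exact ⟨j, hj, h⟩

theorem good_qs {φ : List (T3 ℕ)} (h : ∀ C ∈ φ, C.dist ∧ ∀ x ∈ C.vars, x < 3 * φ.length) :
    ∀ q ∈ qs φ, GoodQ (2 + 4 * φ.length) q := by
  intro q hq
  obtain ⟨j, hj, hq⟩ := mem_qs.1 hq
  obtain ⟨⟨d1, d2, d3⟩, hv⟩ := h _ (List.getElem_mem hj)
  simp only [T3.vars, List.mem_cons, List.not_mem_nil, or_false, forall_eq_or_imp, forall_eq] at hv
  obtain ⟨v1, v2, v3⟩ := hv
  unfold GoodQ
  rcases hq with rfl | rfl | rfl | rfl <;>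
    simp only [List.nodup_cons, List.mem_cons, List.not_mem_nil, or_false, not_or, not_false_eq_true,
      List.nodup_nil, and_true] <;> omega

/-- soundness of the clause gadget -/
theorem gadget {R O X Y Z T : ℕ} (hd : [R, O, X, Y, Z, T].Nodup) (h1 : ¬ Cr R X T Y) (h2 : ¬ Cr R Y X T)
    (h3 : ¬ Cr R T O Z) (h4 : ¬ Cr R Z T O) :
    ¬ ((Cyc R O X ↔ Cyc R O Y) ∧ (Cyc R O Y ↔ Cyc R O Z)) := by
  obtain ⟨M, hM⟩ : ∃ M, ∀ v ∈ [R, O, X, Y, Z, T], v < M :=
    ⟨R + O + X + Y + Z + T + 1, by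
      intro v hv
      simp only [List.mem_cons, List.not_mem_nil, or_false] at hv
      omega⟩
  simp only [List.mem_cons, List.not_mem_nil, or_false, forall_eq_or_imp, forall_eq] at hM
  obtain ⟨MR, MO, MX, MY, MZ, MT⟩ := hM
  simp only [List.nodup_cons, List.mem_cons, List.not_mem_nil, or_false, not_or, not_false_eq_true,
    List.nodup_nil, and_true] at hd
  obtain ⟨⟨RO, RX, RY, RZ, RT⟩, ⟨OX, OY, OZ, OT⟩, ⟨XY, XZ, XT⟩, ⟨YZ, YT⟩, ZT⟩ := hd
  change R ≠ O at RO
  change R ≠ X at RX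
  change R ≠ Y at RY
  change R ≠ Z at RZ
  change R ≠ T at RT
  change O ≠ X at OX
  change O ≠ Y at OY
  change O ≠ Z at OZ
  change O ≠ T at OT
  change X ≠ Y at XY
  change X ≠ T at XT
  change Y ≠ T at YT
  change Z ≠ T at ZT
  rw [← cyc_rot (c := R) MR MO MX, ← cyc_rot (c := R) MR MO MY, ← cyc_rot (c := R) MR MO MZ]
  rw [← cr_rot (c := R) MR MX MT MY RX RT RY XT XY YT.symm] at h1
  rw [← cr_rot (c := R) MR MY MX MT RY RX RT XY.symm YT XT] at h2
  rw [← cr_rot (c := R) MR MT MO MZ RT RO RZ OT.symm ZT.symm OZ] at h3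
  rw [← cr_rot (c := R) MR MZ MT MO RZ RT RO ZT OZ.symm OT.symm] at h4
  rw [rot_self] at *
  have gO := rot_gt MR RO.symm
  have gX := rot_gt MR RX.symm
  have gY := rot_gt MR RY.symm
  have gZ := rot_gt MR RZ.symm
  have gT := rot_gt MR RT.symm
  have nOX := rot_ne (c := R) MO MX OX
  have nOY := rot_ne (c := R) MO MY OY
  have nOZ := rot_ne (c := R) MO MZ OZ
  have nOT := rot_ne (c := R) MO MT OT
  have nXY := rot_ne (c := R) MX MY XY
  have nXT := rot_ne (c := R) MX MT XT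
  have nYT := rot_ne (c := R) MY MT YT
  have nZT := rot_ne (c := R) MZ MT ZT
  generalize rot R M O = O' at *
  generalize rot R M X = X' at *
  generalize rot R M Y = Y' at *
  generalize rot R M Z = Z' at *
  generalize rot R M T = T' at *
  have s1 := sep gX gT gY nXT nXY nYT.symm h1
  have s2 := sep gY gX gT nXY.symm nYT nXT h2
  have s3 := sep gT gO gZ nOT.symm nZT.symm nOZ h3
  have s4 := sep gZ gT gO nZT nOZ.symm nOT.symm h4
  clear h1 h2 h3 h4
  have c1 : Cyc R O' X' ↔ O' < X' := by unfold Cyc; omega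
  have c2 : Cyc R O' Y' ↔ O' < Y' := by unfold Cyc; omega
  have c3 : Cyc R O' Z' ↔ O' < Z' := by unfold Cyc; omega
  rw [c1, c2, c3]
  omega

theorem nae_of_nc {φ : List (T3 ℕ)} (h : ∀ C ∈ φ, C.dist ∧ ∀ x ∈ C.vars, x < 3 * φ.length)
    {p : ℕ → ℕ} (hp : ∀ x y, x < 2 + 4 * φ.length → y < 2 + 4 * φ.length → p x = p y → x = y)
    (hc : ∀ q ∈ qs φ, ¬ Cr (p q.1.1) (p q.1.2) (p q.2.1) (p q.2.2)) : SatR nae φ := by
  classical
  refine ⟨fun i => decide (Cyc (p 0) (p 1) (p (2 + i))), fun C hC => ?_⟩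
  obtain ⟨j, hj, rfl⟩ := List.getElem_of_mem hC
  obtain ⟨⟨d1, d2, d3⟩, hv⟩ := h _ hC
  simp only [T3.vars, List.mem_cons, List.not_mem_nil, or_false, forall_eq_or_imp, forall_eq] at hv
  obtain ⟨v1, v2, v3⟩ := hv
  have h1 := hc _ (mem_qs.2 ⟨j, hj, Or.inl rfl⟩)
  have h2 := hc _ (mem_qs.2 ⟨j, hj, Or.inr (Or.inl rfl)⟩)
  have h3 := hc _ (mem_qs.2 ⟨j, hj, Or.inr (Or.inr (Or.inl rfl))⟩)
  have h4 := hc _ (mem_qs.2 ⟨j, hj, Or.inr (Or.inr (Or.inr rfl))⟩)
  have hd : [p 0, p 1, p (2 + (φ[j]).1), p (2 + (φ[j]).2.1), p (2 + (φ[j]).2.2),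
      p (2 + 3 * φ.length + j)].Nodup := by
    have : ([0, 1, 2 + (φ[j]).1, 2 + (φ[j]).2.1, 2 + (φ[j]).2.2, 2 + 3 * φ.length + j].map p).Nodup := by
      refine List.Nodup.map_on ?_ ?_
      · intro x hx y hy hxy
        simp only [List.mem_cons, List.not_mem_nil, or_false] at hx hy
        exact hp x y (by omega) (by omega) hxy
      · simp only [List.nodup_cons, List.mem_cons, List.not_mem_nil, or_false, not_or, not_false_eq_true,
          List.nodup_nil, and_true]
        omega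
    simpa using this
  have := gadget hd h1 h2 h3 h4
  simp only [nae]
  by_contra hcon
  apply this
  simp only [Bool.not_eq_true, Bool.not_eq_false', Bool.and_eq_true, beq_iff_eq, decide_eq_decide] at hcon
  exact hcon

theorem exists_rank {V L : Type} [LinearOrder L] (S : Finset V) (q : V → L) :
    ∃ pos : V → ℕ, ∀ u ∈ S, ∀ v ∈ S, (pos u < pos v ↔ q u < q v) := by
  classical
  refine ⟨fun v => (S.filter fun u => q u < q v).card, fun u hu v hv => ⟨fun h => ?_, fun h => ?_⟩⟩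
  · by_contra hc
    push Not at hc
    refine absurd h (not_lt.2 (Finset.card_le_card fun w hw => ?_))
    simp only [Finset.mem_filter] at hw ⊢
    exact ⟨hw.1, hw.2.trans_le hc⟩
  · apply Finset.card_lt_card
    rw [Finset.ssubset_iff_of_subset]
    · exact ⟨u, by simp [hu, h], by simp⟩
    · intro w hw
      simp only [Finset.mem_filter] at hw ⊢
      exact ⟨hw.1, hw.2.trans h⟩

theorem nocr {R X Y T : ℕ} (hX : R < X) (hY : R < Y) (hT : R < T)
    (h : (X < T ∧ T < Y) ∨ (Y < T ∧ T < X)) : ¬ Cr R X T Y ∧ ¬ Cr R Y X T := by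
  unfold Cr
  omega

/-- the coordinate of the auxiliary element of a clause -/
def ee (v : ℕ → Bool) (C : T3 ℕ) : ℤ :=
  if v C.1 = v C.2.1 then (if v C.1 then (min C.1 C.2.1 : ℕ) + 1 else -((min C.1 C.2.1 : ℕ) + 2))
  else if v C.2.2 then -1 else 0

theorem nc_of_nae {φ : List (T3 ℕ)} (h : ∀ C ∈ φ, C.dist ∧ ∀ x ∈ C.vars, x < 3 * φ.length)
    (hs : SatR nae φ) : ∃ p : ℕ → ℕ,
      (∀ x y, x < 2 + 4 * φ.length → y < 2 + 4 * φ.length → p x = p y → x = y) ∧
      ∀ q ∈ qs φ, ¬ Cr (p q.1.1) (p q.1.2) (p q.2.1) (p q.2.2) := by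
  obtain ⟨v, hv⟩ := hs
  set m := φ.length with hm
  let f : ℕ → ℤ := fun e => if e = 0 then -(3 * m + 10) else if e = 1 then 0 else
    if e < 2 + 3 * m then (if v (e - 2) then ((e - 2 : ℕ) : ℤ) + 1 else -(((e - 2 : ℕ) : ℤ) + 1)) else
    ee v (φ.getD (e - (2 + 3 * m)) (0, 0, 0))
  let g : ℕ → ℕ := fun e => if e < 2 + 3 * m then 0 else e
  have f0 : f 0 = -(3 * m + 10) := by simp [f]
  have f1 : f 1 = 0 := by simp [f]
  have fv : ∀ i, i < 3 * m → f (2 + i) = if v i then (i : ℤ) + 1 else -((i : ℤ) + 1) := by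
    intro i hi
    have e1 : ¬ (2 + i = 0) := by omega
    have e2 : ¬ (2 + i = 1) := by omega
    have e3 : 2 + i < 2 + 3 * m := by omega
    have e4 : 2 + i - 2 = i := by omega
    simp only [f, e1, e2, e3, e4, if_true, if_false]
  have ft : ∀ j (hj : j < m), f (2 + 3 * m + j) = ee v (φ[j]) := by
    intro j hj
    have e1 : ¬ (2 + 3 * m + j = 0) := by omega
    have e2 : ¬ (2 + 3 * m + j = 1) := by omega
    have e3 : ¬ (2 + 3 * m + j < 2 + 3 * m) := by omega
    have e4 : 2 + 3 * m + j - (2 + 3 * m) = j := by omega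
    simp only [f, e1, e2, e3, e4, if_false]
    rw [List.getD_eq_getElem _ _ hj]
  have g0 : ∀ e, e < 2 + 3 * m → g e = 0 := by
    intro e he
    simp [g, he]
  have g1 : ∀ e, ¬ e < 2 + 3 * m → g e = e := by
    intro e he
    simp [g, he]
  obtain ⟨p, hp⟩ := exists_rank (Finset.range (2 + 4 * m)) (fun e => (toLex (f e, g e) : ℤ ×ₗ ℕ))
  have hlt : ∀ x y, x < 2 + 4 * m → y < 2 + 4 * m → (p x < p y ↔ (f x < f y ∨ f x = f y ∧ g x < g y)) := by
    intro x y hx hy
    rw [hp x (by simpa using hx) y (by simpa using hy), Prod.Lex.toLex_lt_toLex]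
  -- the coordinate of an auxiliary element
  have eeb : ∀ j (hj : j < m), -(3 * m + 10 : ℤ) < ee v (φ[j]) := by
    intro j hj
    obtain ⟨⟨d1, d2, d3⟩, hv'⟩ := h _ (List.getElem_mem hj)
    simp only [T3.vars, List.mem_cons, List.not_mem_nil, or_false, forall_eq_or_imp, forall_eq] at hv'
    obtain ⟨v1, v2, v3⟩ := hv'
    unfold ee
    split_ifs <;> omega
  have fb : ∀ e, e ≠ 0 → e < 2 + 4 * m → f 0 < f e := by
    intro e he he'
    rw [f0]
    by_cases h1 : e = 1
    · rw [h1, f1]; omega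
    · by_cases h2 : e < 2 + 3 * m
      · obtain ⟨i, rfl⟩ : ∃ i, e = 2 + i := ⟨e - 2, by omega⟩
        rw [fv i (by omega)]
        split_ifs <;> omega
      · obtain ⟨j, rfl⟩ : ∃ j, e = 2 + 3 * m + j := ⟨e - (2 + 3 * m), by omega⟩
        rw [ft j (by omega)]
        exact eeb j (by omega)
  refine ⟨p, ?_, ?_⟩
  · intro x y hx hy hxy
    have e1 := (hlt x y hx hy).not.1 (by omega)
    have e2 := (hlt y x hy hx).not.1 (by omega)
    have e3 : f x = f y ∧ g x = g y := by omega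
    obtain ⟨e3, e4⟩ := e3
    by_cases hx' : x < 2 + 3 * m
    · by_cases hy' : y < 2 + 3 * m
      · -- both are variables or special
        have key : ∀ e, e < 2 + 3 * m → e ≠ 0 → e ≠ 1 → (f e = ((e : ℤ) - 1) ∨ f e = -((e : ℤ) - 1)) := by
          intro e he k1 k2
          obtain ⟨i, rfl⟩ : ∃ i, e = 2 + i := ⟨e - 2, by omega⟩
          rw [fv i (by omega)]
          split_ifs
          · left; push_cast; ring
          · right; push_cast; ring
        by_cases x0 : x = 0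
        · by_contra hne
          have := fb y (by omega) hy
          rw [x0] at e3
          omega
        · by_cases y0 : y = 0
          · have := fb x x0 hx
            rw [y0] at e3
            omega
          · by_cases x1 : x = 1
            · by_cases y1 : y = 1
              · omega
              · have := key y hy' y0 y1
                rw [x1, f1] at e3
                omega
            · by_cases y1 : y = 1
              · have := key x hx' x0 x1
                rw [y1, f1] at e3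
                omega
              · have k1 := key x hx' x0 x1
                have k2 := key y hy' y0 y1
                omega
      · rw [g0 x hx', g1 y hy'] at e4
        omega
    · by_cases hy' : y < 2 + 3 * m
      · rw [g1 x hx', g0 y hy'] at e4
        omega
      · rw [g1 x hx', g1 y hy'] at e4
        exact e4
  · intro q hq
    obtain ⟨j, hj, hq⟩ := mem_qs.1 hq
    obtain ⟨⟨d1, d2, d3⟩, hv'⟩ := h _ (List.getElem_mem hj)
    simp only [T3.vars, List.mem_cons, List.not_mem_nil, or_false, forall_eq_or_imp, forall_eq] at hv'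
    obtain ⟨v1, v2, v3⟩ := hv'
    have hsat := hv _ (List.getElem_mem hj)
    rw [← hm] at hj
    have pR : ∀ e, e ≠ 0 → e < 2 + 4 * m → p 0 < p e := fun e he he' =>
      (hlt 0 e (by omega) he').2 (Or.inl (fb e he he'))
    have rX := pR (2 + (φ[j]).1) (by omega) (by omega)
    have rY := pR (2 + (φ[j]).2.1) (by omega) (by omega)
    have rZ := pR (2 + (φ[j]).2.2) (by omega) (by omega)
    have rT := pR (2 + 3 * m + j) (by omega) (by omega)
    have rO := pR 1 (by omega) (by omega)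
    have gT : g (2 + 3 * m + j) = 2 + 3 * m + j := g1 _ (by omega)
    have gX : g (2 + (φ[j]).1) = 0 := g0 _ (by omega)
    have gY : g (2 + (φ[j]).2.1) = 0 := g0 _ (by omega)
    have gZ : g (2 + (φ[j]).2.2) = 0 := g0 _ (by omega)
    have gO : g 1 = 0 := g0 _ (by omega)
    have fX := fv (φ[j]).1 v1
    have fY := fv (φ[j]).2.1 v2
    have fZ := fv (φ[j]).2.2 v3
    have fT := ft j hj
    unfold ee at fT
    simp only [nae] at hsat
    have btw1 : (p (2 + (φ[j]).1) < p (2 + 3 * m + j) ∧ p (2 + 3 * m + j) < p (2 + (φ[j]).2.1)) ∨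
        (p (2 + (φ[j]).2.1) < p (2 + 3 * m + j) ∧ p (2 + 3 * m + j) < p (2 + (φ[j]).1)) := by
      rw [hlt _ _ (by omega) (by omega), hlt _ _ (by omega) (by omega), hlt _ _ (by omega) (by omega),
        hlt _ _ (by omega) (by omega), gT, gX, gY, fX, fY, fT]
      cases hx : v (φ[j]).1 <;> cases hy : v (φ[j]).2.1 <;> cases hz : v (φ[j]).2.2 <;>
        simp only [hx, hy, hz] at hsat ⊢ <;> simp at hsat ⊢ <;> omega
    have btw2 : (p (2 + 3 * m + j) < p 1 ∧ p 1 < p (2 + (φ[j]).2.2)) ∨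
        (p (2 + (φ[j]).2.2) < p 1 ∧ p 1 < p (2 + 3 * m + j)) := by
      rw [hlt _ _ (by omega) (by omega), hlt _ _ (by omega) (by omega), hlt _ _ (by omega) (by omega),
        hlt _ _ (by omega) (by omega), gT, gZ, gO, fZ, fT, f1]
      cases hx : v (φ[j]).1 <;> cases hy : v (φ[j]).2.1 <;> cases hz : v (φ[j]).2.2 <;>
        simp only [hx, hy, hz] at hsat ⊢ <;> simp at hsat ⊢ <;> omega
    have n1 := nocr rX rY rT btw1
    have n2 := nocr rT rZ rO btw2
    rcases hq with rfl | rfl | rfl | rfl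
    · exact n1.1
    · exact n1.2
    · exact n2.1
    · exact n2.2

theorem hard4 : NPHard fun H : {H : Hyp // Valid H} => AltFree 4 H.1 := by
  refine NPHard.of_nae (fun φ => (⟨inst (hv (nci φ), he (nci φ)), valid_inst _⟩ : {H : Hyp // Valid H}))
    (PT.subtype ((PT.inst hyp_pt).comp nci_pt) _) fun φ hφ => ?_
  simp only
  have hn : (nci φ).1.length = 2 + 4 * φ.length := by simp [nci]
  rw [inst_iff (hv_nodup _) he_sub]
  constructor
  · intro hs
    obtain ⟨p, hp, hc⟩ := nc_of_nae hφ hs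
    exact complete4 hn rfl hp (good_qs hφ) hc
  · intro hf
    obtain ⟨p, hp, hc⟩ := sound4 hn rfl (good_qs hφ) hf
    exact nae_of_nc hφ hp hc

end Pool.Agent.Q9h3.AB
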