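import Pool.Agent.Q9h3.AB.Gen

/-!
# Alternation-freeness is in NP
-/

set_option autoImplicit false
set_option synthInstance.maxSize 2000

namespace Pool.Agent.Q9h3.AB

open Pool.Agent.Lib.CX

/-- the letter at place `k` of the alternation fits `v` -/
def M (A B : List ℕ) (k v : ℕ) : Prop := if Even k then v ∈ A ∧ v ∉ B else v ∈ B ∧ v ∉ A

instance (A B : List ℕ) (k v : ℕ) : Decidable (M A B k v) := by unfold M; infer_instance

/-- the greedy length of an alternation -/
def cnt (a : List ℕ × List ℕ × List ℕ) : ℕ :=
  a.2.2.foldl (fun k v => if (Even k ∧ v ∈ a.1 ∧ v ∉ a.2.1) ∨ (¬ Even k ∧ v ∈ a.2.1 ∧ v ∉ a.1) then k + 1 else k) 0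

theorem cnt_pt : PT cnt := by
  unfold cnt
  refine PT.foldl_add (F := fun a : List ℕ × List ℕ × List ℕ => fun k v =>
    if (Even k ∧ v ∈ a.1 ∧ v ∉ a.2.1) ∨ (¬ Even k ∧ v ∈ a.2.1 ∧ v ∉ a.1) then k + 1 else k)
    (i := fun _ => 0) (l := fun a => a.2.2) (D := fun _ => size 1) (by fun_prop) (by fun_prop) (by fun_prop)
    (by fun_prop) ?_
  intro a s x _
  split
  · exact size_add_le s 1
  · omega

section
variable {A B : List ℕ}

/-- alternating lists -/
def AltL (A B : List ℕ) : ℕ → List ℕ → Prop
  | _, [] => True
  | k, v :: s => M A B k v ∧ AltL A B (k + 1) s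

/-- the greedy step -/
def stp (A B : List ℕ) (k v : ℕ) : ℕ := if M A B k v then k + 1 else k

theorem cnt_eq (A B c : List ℕ) : cnt (A, B, c) = c.foldl (stp A B) 0 := by
  unfold cnt
  congr 1
  funext k v
  unfold stp M
  by_cases h : Even k
  · simp [h]
  · simp [h]

theorem g1 (c : List ℕ) : ∀ (k : ℕ) (s : List ℕ), s.Sublist c → AltL A B k s →
    k + s.length ≤ c.foldl (stp A B) k := by
  induction c with
  | nil => intro k s hs _; rw [List.sublist_nil.1 hs]; simp
  | cons v c ih =>
    intro k s hs ha
    rw [List.foldl_cons]
    by_cases hm : M A B k v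
    · have e : stp A B k v = k + 1 := by simp [stp, hm]
      rw [e]
      cases s with
      | nil => have := ih (k + 1) [] (List.nil_sublist _) trivial; simp at this ⊢; omega
      | cons w s =>
        have h1 : s.Sublist c := by
          cases hs with
          | cons _ h => exact (List.sublist_cons_self w s).trans h
          | cons_cons _ h => exact h
        have := ih (k + 1) s h1 ha.2
        simp only [List.length_cons]
        omega
    · have e : stp A B k v = k := by simp [stp, hm]
      rw [e]
      cases hs with
      | cons _ h => exact ih k s h ha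
      | cons_cons _ h => exact absurd ha.1 hm

theorem g2 (c : List ℕ) : ∀ (k l : ℕ), k + l ≤ c.foldl (stp A B) k →
    ∃ s : List ℕ, s.Sublist c ∧ s.length = l ∧ AltL A B k s := by
  induction c with
  | nil => intro k l h; simp at h; exact ⟨[], by simp, by simp [h], trivial⟩
  | cons v c ih =>
    intro k l h
    rw [List.foldl_cons] at h
    by_cases hm : M A B k v
    · have e : stp A B k v = k + 1 := by simp [stp, hm]
      rw [e] at h
      cases l with
      | zero => exact ⟨[], by simp, rfl, trivial⟩
      | succ l =>
        obtain ⟨s, h1, h2, h3⟩ := ih (k + 1) l (by omega)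
        exact ⟨v :: s, h1.cons_cons v, by simp [h2], hm, h3⟩
    · have e : stp A B k v = k := by simp [stp, hm]
      rw [e] at h
      obtain ⟨s, h1, h2, h3⟩ := ih k l h
      exact ⟨s, h1.cons v, h2, h3⟩

theorem altL_get (s : List ℕ) : ∀ k, AltL A B k s → ∀ i (hi : i < s.length), M A B (k + i) s[i] := by
  induction s with
  | nil => intro k _ i hi; simp at hi
  | cons v s ih =>
    intro k h i hi
    cases i with
    | zero => exact h.1
    | succ i =>
      have := ih (k + 1) h.2 i (by simpa using hi)
      rw [List.getElem_cons_succ, show k + (i + 1) = k + 1 + i by omega]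
      exact this

theorem altL_map (x : ℕ → ℕ) : ∀ l k, (∀ i, i < l → M A B (k + i) (x i)) →
    AltL A B k ((List.range l).map x) := by
  intro l
  induction l generalizing x with
  | zero => intro k _; exact trivial
  | succ l ih =>
    intro k h
    rw [List.range_succ_eq_map, List.map_cons, List.map_map]
    refine ⟨h 0 (by omega), ih (x ∘ Nat.succ) (k + 1) fun i hi => ?_⟩
    have := h (i + 1) (by omega)
    rw [show k + 1 + i = k + (i + 1) by omega]
    exact this

end

theorem sublist_of_idx {c s : List ℕ} (h1 : ∀ i (hi : i < s.length), s[i] ∈ c)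
    (h2 : ∀ i j (hi : i < j) (hj : j < s.length), c.idxOf s[i] < c.idxOf s[j]) : s.Sublist c := by
  rw [List.sublist_iff_exists_fin_orderEmbedding_get_eq]
  refine ⟨OrderEmbedding.ofStrictMono
    (fun i : Fin s.length => (⟨c.idxOf s[i], List.idxOf_lt_length_of_mem (h1 i i.2)⟩ : Fin c.length)) ?_, ?_⟩
  · intro i j hij
    exact h2 i j hij j.2
  · intro i
    simp

theorem inNP (t : ℕ) : InNP fun H : {H : Hyp // Valid H} => AltFree t H.1 := by
  have hcnt := cnt_pt
  refine InNP.of_cert' (fun (H : {H : Hyp // Valid H}) (c : List ℕ) =>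
    (∀ v ∈ List.range H.1.1.length, v ∈ c) ∧ ∀ A ∈ H.1.2, ∀ B ∈ H.1.2, cnt (A, B, c) < t)
    (fun H => H.1.1.length * (size H.1.1.length + 1) + 2) (by fun_prop) (by fun_prop) ?_ ?_
  · rintro ⟨H, hH⟩ c ⟨h1, h2⟩
    simp only at h1 h2
    refine ⟨fun v => c.idxOf v, ?_, ?_⟩
    · intro u hu v hv h
      exact (List.idxOf_inj (h1 u (by simpa using hu))).1 h
    · intro A hA B hB h
      obtain ⟨x, hx1, hx2⟩ := hasAlt_iff.1 h
      have hm := altG_mem (L := ℕ) (pos := fun v => c.idxOf v) hx1 (S := fun v => v < H.n)
        ((hH.1 A hA).2) ((hH.1 B hB).2)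
      have h3 := h2 A hA B hB
      rw [cnt_eq] at h3
      have h4 := g1 (A := A) (B := B) c 0 ((List.range t).map x) ?_ (altL_map x t 0 fun i hi => ?_)
      · simp at h4; omega
      · apply sublist_of_idx
        · intro i hi
          simp only [List.length_map, List.length_range] at hi
          simp only [List.getElem_map, List.getElem_range]
          exact h1 _ (by simpa using hm i hi)
        · intro i j hij hj
          simp only [List.length_map, List.length_range] at hj
          simp only [List.getElem_map, List.getElem_range]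
          exact hx2 i j hij hj
      · rw [zero_add]; exact hx1 i hi
  · rintro ⟨H, hH⟩ ⟨pos, h1, h2⟩
    simp only
    set c := (List.range H.1.length).mergeSort (fun a b => decide (pos a ≤ pos b)) with hc
    have hperm : c.Perm (List.range H.1.length) := List.mergeSort_perm _ _
    have hmem : ∀ v, v ∈ c ↔ v < H.1.length := fun v => by rw [hperm.mem_iff, List.mem_range]
    have hnd : c.Nodup := hperm.nodup_iff.2 List.nodup_range
    have hs : c.Pairwise (fun a b => pos a ≤ pos b) := by
      have := List.pairwise_mergeSort (le := fun a b => decide (pos a ≤ pos b))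
        (fun a b c h1 h2 => by simp only [decide_eq_true_eq] at h1 h2 ⊢; omega)
        (fun a b => by simp only [Bool.or_eq_true, decide_eq_true_eq]; omega) (List.range H.1.length)
      simpa using this
    refine ⟨c, ?_, fun v hv => (hmem v).2 (List.mem_range.1 hv), ?_⟩
    · refine (size_list_le (B := size H.1.length) fun x hx => ?_).trans ?_
      · exact size_nat_mono ((hmem x).1 hx).le
      · have : c.length = H.1.length := by rw [hperm.length_eq, List.length_range]
        rw [this]
    · intro A hA B hB
      by_contra hcon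
      push Not at hcon
      rw [cnt_eq] at hcon
      obtain ⟨s, k1, k2, k3⟩ := g2 (A := A) (B := B) c 0 t (by omega)
      refine h2 A hA B hB (hasAlt_iff.2 ⟨fun i => s.getD i 0, ?_, ?_⟩)
      · intro i hi
        rw [← k2] at hi
        have := altL_get s 0 k3 i hi
        rw [zero_add] at this
        dsimp only
        rw [List.getD_eq_getElem _ _ hi]
        exact this
      · intro i j hij hj
        rw [← k2] at hj
        dsimp only
        rw [List.getD_eq_getElem _ _ hj, List.getD_eq_getElem _ _ (hij.trans hj)]
        have e1 : pos s[i] ≤ pos s[j] := (List.pairwise_iff_getElem.1 (hs.sublist k1)) i j _ hj hij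
        have e2 : s[i] ≠ s[j] := fun h => by
          have := ((hnd.sublist k1).getElem_inj_iff (hi := hij.trans hj) (hj := hj)).1 h
          omega
        have m1 := (hmem _).1 (k1.subset (List.getElem_mem (hij.trans hj)))
        have m2 := (hmem _).1 (k1.subset (List.getElem_mem hj))
        have e3 : pos s[i] ≠ pos s[j] := fun h => e2 (h1 m1 m2 h)
        omega

end Pool.Agent.Q9h3.AB
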