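import Pool.Agent.Q9h3.AB.Gen

/-!
# From alternations of length `t` to alternations of length `t + 2`
-/

set_option autoImplicit false
set_option synthInstance.maxSize 2000

namespace Pool.Agent.Q9h3.AB

open Pool.Agent.Lib.CX

/-- add `n + 2` new vertices; every hyperedge is repeated with each of them -/
def lift2 (H : Hyp) : List ℕ × List (List ℕ) :=
  (List.range (2 * H.1.length + 2), H.2.flatMap fun A => (List.range (H.1.length + 2)).map fun i =>
    (H.1.length + i) :: A)

theorem lift2_pt : PT fun H : Hyp => inst (lift2 H) := by
  unfold lift2
  fun_prop

theorem mem_lift2 {H : Hyp} {A' : List ℕ} :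
    A' ∈ (lift2 H).2 ↔ ∃ A ∈ H.E, ∃ p, H.n ≤ p ∧ p < 2 * H.n + 2 ∧ p :: A = A' := by
  unfold lift2
  simp only [List.mem_flatMap, List.mem_map, List.mem_range]
  unfold Hyp.n Hyp.E
  constructor
  · rintro ⟨A, hA, i, hi, rfl⟩
    exact ⟨A, hA, _, by omega, by omega, rfl⟩
  · rintro ⟨A, hA, p, h1, h2, rfl⟩
    exact ⟨A, hA, p - H.1.length, by omega, by rw [Nat.add_sub_cancel' h1]⟩

/-- two of the new vertices lie in the same gap of the old ones -/
theorem gap {n : ℕ} {pos : ℕ → ℕ} (hp : Set.InjOn pos {v | v ∈ List.range (2 * n + 2)}) :
    ∃ p q, n ≤ p ∧ p < 2 * n + 2 ∧ n ≤ q ∧ q < 2 * n + 2 ∧ pos p < pos q ∧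
      ∀ v < n, pos v < pos q → pos v < pos p := by
  let g : ℕ → Finset ℕ := fun i => (Finset.range n).filter fun v => pos v < pos (n + i)
  have h1 : ∃ i ∈ Finset.range (n + 2), ∃ j ∈ Finset.range (n + 2), i ≠ j ∧ (g i).card = (g j).card := by
    apply Finset.exists_ne_map_eq_of_card_lt_of_maps_to (t := Finset.range (n + 1))
    · simp
    · intro i _
      simp only [Finset.coe_range, Set.mem_Iio]
      have := Finset.card_filter_le (Finset.range n) fun v => pos v < pos (n + i)
      rw [Finset.card_range] at this
      simp only [g]
      omega
  obtain ⟨i, hi, j, hj, hij, hc⟩ := h1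
  simp only [Finset.mem_range] at hi hj
  have key : ∀ i j, i < n + 2 → j < n + 2 → (g i).card = (g j).card → pos (n + i) < pos (n + j) →
      ∃ p q, n ≤ p ∧ p < 2 * n + 2 ∧ n ≤ q ∧ q < 2 * n + 2 ∧ pos p < pos q ∧
      ∀ v < n, pos v < pos q → pos v < pos p := by
    intro i j hi hj hc hlt
    refine ⟨n + i, n + j, by omega, by omega, by omega, by omega, hlt, ?_⟩
    have hsub : g i ⊆ g j := by
      intro v hv
      simp only [g, Finset.mem_filter] at hv ⊢
      exact ⟨hv.1, hv.2.trans hlt⟩
    have heq := Finset.eq_of_subset_of_card_le hsub hc.ge
    intro v hv h
    have : v ∈ g j := by simp [g, hv, h]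
    rw [← heq] at this
    simp only [g, Finset.mem_filter] at this
    exact this.2
  have hne : pos (n + i) ≠ pos (n + j) := fun h => hij (by
    have := hp (by simp; omega) (by simp; omega) h
    omega)
  rcases lt_or_gt_of_ne hne with h | h
  · exact key i j hi hj hc h
  · exact key j i hj hi hc.symm h

theorem lift2_iff {H : Hyp} (hH : Valid H) {t : ℕ} :
    FreeV ℕ (t + 2) (lift2 H).1 (lift2 H).2 ↔ AltFree t H := by
  have hE : ∀ A ∈ H.E, ∀ v ∈ A, v < H.n := fun A hA => (hH.1 A hA).2
  rw [altFree_iff]
  set n := H.n with hn
  constructor
  · rintro ⟨pos, h1, h2⟩
    change Set.InjOn pos {v | v ∈ List.range (2 * n + 2)} at h1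
    obtain ⟨p, q, p1, p2, q1, q2, hpq, hg⟩ := gap h1
    have inj : ∀ u v, u < 2 * n + 2 → v < 2 * n + 2 → pos u = pos v → u = v := by
      intro u v hu hv h
      exact h1 (by simpa using hu) (by simpa using hv) h
    refine ⟨pos, ?_, ?_⟩
    · intro u hu v hv h
      simp only [List.mem_range, Set.mem_ofPred_eq] at hu hv
      exact inj u v (by omega) (by omega) h
    · rintro A hA B hB ⟨x, hx1, hx2⟩
      have hm := altG_mem (L := ℕ) (pos := pos) hx1 (S := fun v => v < n) (hE A hA) (hE B hB)
      have hex : ∃ s, s = t ∨ (s < t ∧ pos p < pos (x s)) := ⟨t, Or.inl rfl⟩
      classical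
      obtain ⟨s, hs, hmin⟩ : ∃ s, (s = t ∨ (s < t ∧ pos p < pos (x s))) ∧
          ∀ i < s, ¬ (i = t ∨ (i < t ∧ pos p < pos (x i))) :=
        ⟨Nat.find hex, Nat.find_spec hex, fun i hi => Nat.find_min hex hi⟩
      have hst : s ≤ t := by omega
      have lo : ∀ i < s, pos (x i) < pos p := by
        intro i hi
        have h3 := hmin i hi
        have h4 : i < t := by omega
        have h5 : pos (x i) ≠ pos p := fun h => by
          have := inj _ _ (by have := hm i h4; omega) p2 h
          have := hm i h4
          omega
        by_contra h6
        exact h3 (Or.inr ⟨h4, by omega⟩)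
      have hi : ∀ i, s ≤ i → i < t → pos q < pos (x i) := by
        intro i hsi hit
        have h3 : pos p < pos (x i) := by
          rcases hs with hs | hs
          · omega
          · rcases Nat.eq_or_lt_of_le hsi with h | h
            · rw [← h]; exact hs.2
            · exact hs.2.trans (hx2 s i h hit)
        have h5 : pos (x i) ≠ pos q := fun h => by
          have := inj _ _ (by have := hm i hit; omega) q2 h
          have := hm i hit
          omega
        by_contra h6
        have := hg (x i) (hm i hit) (by omega)
        omega
      have hpqne : p ≠ q := fun h => by rw [h] at hpq; omega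
      have nA : ∀ v, n ≤ v → v ∉ A := fun v hv h => by have := hE A hA v h; omega
      have nB : ∀ v, n ≤ v → v ∉ B := fun v hv h => by have := hE B hB v h; omega
      refine h2 ((if Even s then p else q) :: A) (mem_lift2.2 ⟨A, hA, _, ?_, ?_, rfl⟩)
        ((if Even s then q else p) :: B) (mem_lift2.2 ⟨B, hB, _, ?_, ?_, rfl⟩)
        ⟨fun i => if i < s then x i else if i = s then p else if i = s + 1 then q else x (i - 2), ?_, ?_⟩
      · split <;> assumption
      · split <;> assumption
      · split <;> assumption
      · split <;> assumption
      · intro i hi'
        have old : ∀ k, k < t → (Even i ↔ Even k) →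
            if Even i then x k ∈ (if Even s then p else q) :: A ∧ x k ∉ (if Even s then q else p) :: B
            else x k ∈ (if Even s then q else p) :: B ∧ x k ∉ (if Even s then p else q) :: A := by
          intro k hk hik
          have h3 := hx1 k hk
          have h4 := hm k hk
          have e1 : x k ≠ p := by omega
          have e2 : x k ≠ q := by omega
          by_cases hev : Even i
          · have hev' := hik.1 hev
            simp only [hev', if_true] at h3
            simp only [hev, if_true, List.mem_cons, not_or]
            exact ⟨Or.inr h3.1, by split <;> assumption, h3.2⟩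
          · have hev' : ¬ Even k := fun h => hev (hik.2 h)
            simp only [hev', if_false] at h3
            simp only [hev, if_false, List.mem_cons, not_or]
            exact ⟨Or.inr h3.1, by split <;> assumption, h3.2⟩
        dsimp only
        by_cases c1 : i < s
        · simp only [c1, if_true]
          exact old i (by omega) Iff.rfl
        · by_cases c2 : i = s
          · subst c2
            simp only [lt_irrefl, if_false, if_true]
            by_cases hev : Even i
            · simp [hev, hpqne, nB p p1]
            · simp [hev, hpqne, nA p p1]
          · by_cases c3 : i = s + 1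
            · subst c3
              simp only [show ¬ (s + 1 < s) by omega, show ¬ (s + 1 = s) by omega, if_false, if_true]
              by_cases hev : Even s
              · have : ¬ Even (s + 1) := by rw [Nat.even_add_one]; simpa using hev
                simp [hev, this, hpqne.symm, nA q q1]
              · have : Even (s + 1) := by rw [Nat.even_add_one]; exact hev
                simp [hev, this, hpqne.symm, nB q q1]
            · simp only [c1, c2, c3, if_false]
              refine old (i - 2) (by omega) ?_
              obtain ⟨k, rfl⟩ : ∃ k, i = k + 2 := ⟨i - 2, by omega⟩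
              simp [Nat.even_add]
      · intro i j hij hj
        dsimp only
        have hij' : i < t + 2 := by omega
        by_cases i1 : i < s
        · by_cases j1 : j < s
          · simp only [i1, j1, if_true]; exact hx2 i j hij (by omega)
          · have := lo i i1
            by_cases j2 : j = s
            · simp only [i1, j1, j2, if_true, lt_irrefl, if_false]; exact this
            · by_cases j3 : j = s + 1
              · simp only [i1, j1, j2, j3, if_true, if_false]
                simp only [show ¬ (s + 1 < s) by omega, show ¬ (s + 1 = s) by omega, if_false]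
                omega
              · simp only [i1, j1, j2, j3, if_true, if_false]
                have := hi (j - 2) (by omega) (by omega)
                omega
        · have j1 : ¬ j < s := by omega
          by_cases i2 : i = s
          · have j2 : ¬ j = s := by omega
            by_cases j3 : j = s + 1
            · simp only [i2, j3, if_true, lt_irrefl, if_false]
              simp only [show ¬ (s + 1 < s) by omega, show ¬ (s + 1 = s) by omega, if_false]
              exact hpq
            · simp only [i2, j1, j2, j3, if_true, lt_irrefl, if_false]
              have := hi (j - 2) (by omega) (by omega)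
              omega
          · have j2 : ¬ j = s := by omega
            have j3 : ¬ j = s + 1 := by omega
            by_cases i3 : i = s + 1
            · simp only [i3, j1, j2, j3, if_true, if_false]
              simp only [show ¬ (s + 1 < s) by omega, show ¬ (s + 1 = s) by omega, if_false]
              exact hi (j - 2) (by omega) (by omega)
            · simp only [i1, i2, i3, j1, j2, j3, if_false]
              exact hx2 (i - 2) (j - 2) (by omega) (by omega)
  · rintro ⟨pos, h1, h2⟩
    refine FreeV.rank (L := ℕ ×ₗ ℕ) ?_ ?_
    · intro A' hA' v hv
      obtain ⟨A, hA, p, p1, p2, rfl⟩ := mem_lift2.1 hA'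
      change v ∈ List.range (2 * n + 2)
      rw [List.mem_range]
      rcases List.mem_cons.1 hv with rfl | hv
      · exact p2
      · have := hE A hA v hv; omega
    · refine ⟨fun v => if v < n then toLex (1, pos v) else toLex (0, v), ?_, ?_⟩
      · intro u hu v hv h
        dsimp only at h
        split at h <;> split at h
        · have := congrArg (fun z => (ofLex z).2) h
          simp at this
          rename_i a b
          exact h1 (by simpa using a) (by simpa using b) this
        · have := congrArg (fun z => (ofLex z).1) h
          simp at this
        · have := congrArg (fun z => (ofLex z).1) h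
          simp at this
        · simpa using congrArg (fun z => (ofLex z).2) h
      · intro A' hA' B' hB'
        obtain ⟨A, hA, p, p1, p2, rfl⟩ := mem_lift2.1 hA'
        obtain ⟨B, hB, q, q1, q2, rfl⟩ := mem_lift2.1 hB'
        rintro ⟨x, hx1, hx2⟩
        dsimp only at hx1 hx2
        have inPQ : ∀ i, i < t + 2 → ¬ x i < n → x i = p ∨ x i = q := by
          intro i hi hxn
          have := hx1 i hi
          have a1 : x i ∉ A := fun h => hxn (hE A hA _ h)
          have a2 : x i ∉ B := fun h => hxn (hE B hB _ h)
          simp only [List.mem_cons, a1, a2, or_false] at this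
          split at this
          · exact Or.inl this.1
          · exact Or.inr this.1
        have down : ∀ i j, i < j → j < t + 2 → ¬ x j < n → ¬ x i < n ∧ x i < x j := by
          intro i j hij hj hxn
          have := hx2 i j hij hj
          simp only [hxn, if_false] at this
          by_cases h : x i < n
          · simp only [h, if_true, Prod.Lex.toLex_lt_toLex] at this; omega
          · simp only [h, if_false, Prod.Lex.toLex_lt_toLex] at this
            exact ⟨h, by simpa using this⟩
        have small : ∀ i, 2 ≤ i → i < t + 2 → x i < n := by
          intro i hi hit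
          by_contra hc
          have d1 := down 1 i (by omega) hit hc
          have d0 := down 0 1 (by omega) (by omega) d1.1
          have e0 := inPQ 0 (by omega) d0.1
          have e1 := inPQ 1 (by omega) d1.1
          have e2 := inPQ i hit hc
          omega
        refine h2 A hA B hB ⟨fun i => x (i + 2), ?_, ?_⟩
        · intro i hi
          have h3 := hx1 (i + 2) (by omega)
          have h4 := small (i + 2) (by omega) (by omega)
          have e1 : x (i + 2) ≠ p := by omega
          have e2 : x (i + 2) ≠ q := by omega
          simp only [List.mem_cons, e1, e2, false_or] at h3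
          have e3 : Even (i + 2) ↔ Even i := by simp [Nat.even_add]
          simp only [e3] at h3
          exact h3
        · intro i j hij hj
          have h3 := hx2 (i + 2) (j + 2) (by omega) (by omega)
          have h4 := small (i + 2) (by omega) (by omega)
          have h5 := small (j + 2) (by omega) (by omega)
          simp only [h4, h5, if_true, Prod.Lex.toLex_lt_toLex] at h3
          dsimp only
          simpa using h3

theorem hard_succ2 {t : ℕ} (h : NPHard fun H : {H : Hyp // Valid H} => AltFree t H.1) :
    NPHard fun H : {H : Hyp // Valid H} => AltFree (t + 2) H.1 := by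
  refine h.red ⟨fun H => ⟨inst (lift2 H.1), valid_inst _⟩, PT.subtype (lift2_pt.comp (PT.val PT.id)) _, ?_⟩
  rintro ⟨H, hH⟩
  simp only
  rw [inst_iff, lift2_iff hH]
  · exact List.nodup_range
  · intro A' hA' v hv
    obtain ⟨A, hA, p, p1, p2, rfl⟩ := mem_lift2.1 hA'
    change v ∈ List.range (2 * H.n + 2)
    rw [List.mem_range]
    rcases List.mem_cons.1 hv with rfl | hv
    · exact p2
    · have := (hH.1 A hA).2 v hv; omega

end Pool.Agent.Q9h3.AB
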