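import Pool.Agent.Q9h3.AB.Gen

/-!
# From alternations of length 4 to alternations of length 5
-/

set_option autoImplicit false
set_option synthInstance.maxSize 2000
set_option maxHeartbeats 1000000

namespace Pool.Agent.Q9h3.AB

open Pool.Agent.Lib.CX

/-- the new hypergraph: a vertex `n` and five vertices `n + 1, …, n + 5` are added -/
def lift5 (H : Hyp) : List ℕ × List (List ℕ) :=
  (List.range (H.1.length + 6),
    ((List.range H.1.length ×ˢ List.range 5).map fun p => [H.1.length, p.1, H.1.length + 1 + p.2]) ++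
    (((List.range 5 ×ˢ List.range 5).filter fun p => decide (p.1 < p.2)).map fun p =>
      [H.1.length + 1 + p.1, H.1.length + 1 + p.2]) ++
    (H.2.map fun A => (List.range 6).map (fun i => H.1.length + i) ++ A) ++
    (H.2.map fun A => H.1.length :: (List.range 4).map (fun i => H.1.length + 2 + i) ++ A))

theorem lift5_pt : PT fun H : Hyp => inst (lift5 H) := by
  unfold lift5
  fun_prop

/-- membership in a full hyperedge -/
theorem mem_full {n : ℕ} {A : List ℕ} {v : ℕ} :
    v ∈ (List.range 6).map (fun i => n + i) ++ A ↔ (n ≤ v ∧ v < n + 6) ∨ v ∈ A := by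
  simp only [List.mem_append, List.mem_map, List.mem_range]
  constructor
  · rintro (⟨i, h, rfl⟩ | h)
    · left; omega
    · exact Or.inr h
  · rintro (h | h)
    · left; exact ⟨v - n, by omega, by omega⟩
    · exact Or.inr h

theorem mem_almost {n : ℕ} {A : List ℕ} {v : ℕ} :
    v ∈ n :: (List.range 4).map (fun i => n + 2 + i) ++ A ↔ (v = n ∨ (n + 2 ≤ v ∧ v < n + 6)) ∨ v ∈ A := by
  simp only [List.cons_append, List.mem_cons, List.mem_append, List.mem_map, List.mem_range]
  constructor
  · rintro (h | ⟨i, h, rfl⟩ | h)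
    · left; left; exact h
    · left; right; omega
    · exact Or.inr h
  · rintro ((h | h) | h)
    · left; exact h
    · right; left; exact ⟨v - (n + 2), by omega, by omega⟩
    · right; right; exact h

theorem mem_lift5 {H : Hyp} {A' : List ℕ} :
    A' ∈ (lift5 H).2 ↔
      (∃ v f, v < H.n ∧ H.n < f ∧ f < H.n + 6 ∧ A' = [H.n, v, f]) ∨
      (∃ f g, H.n < f ∧ f < g ∧ g < H.n + 6 ∧ A' = [f, g]) ∨
      (∃ A ∈ H.E, A' = (List.range 6).map (fun i => H.n + i) ++ A) ∨
      (∃ A ∈ H.E, A' = H.n :: (List.range 4).map (fun i => H.n + 2 + i) ++ A) := by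
  unfold lift5
  have hp : ∀ {k l : ℕ} {p : ℕ × ℕ}, p ∈ List.range k ×ˢ List.range l ↔ p.1 < k ∧ p.2 < l := by
    intro k l p
    rw [List.mem_product]; simp
  simp only [List.mem_append, List.mem_map, List.mem_filter, hp,
    decide_eq_true_eq, or_assoc]
  unfold Hyp.n Hyp.E
  refine or_congr ?_ (or_congr ?_ (or_congr ?_ ?_))
  · constructor
    · rintro ⟨⟨v, j⟩, ⟨h1, h2⟩, rfl⟩
      simp only at h1 h2 ⊢
      exact ⟨v, _, h1, by omega, by omega, rfl⟩
    · rintro ⟨v, f, h1, h2, h3, rfl⟩
      exact ⟨(v, f - (H.1.length + 1)), ⟨h1, by simp only; omega⟩, by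
        simp only; rw [Nat.add_sub_cancel' (by omega)]⟩
  · constructor
    · rintro ⟨⟨i, j⟩, ⟨⟨h1, h2⟩, h3⟩, rfl⟩
      simp only at h1 h2 h3 ⊢
      exact ⟨_, _, by omega, by omega, by omega, rfl⟩
    · rintro ⟨f, g, h1, h2, h3, rfl⟩
      exact ⟨(f - (H.1.length + 1), g - (H.1.length + 1)), ⟨⟨by simp only; omega, by simp only; omega⟩,
        by simp only; omega⟩, by
        simp only; rw [Nat.add_sub_cancel' (by omega), Nat.add_sub_cancel' (by omega)]⟩
  · constructor
    · rintro ⟨A, hA, rfl⟩; exact ⟨A, hA, rfl⟩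
    · rintro ⟨A, hA, rfl⟩; exact ⟨A, hA, rfl⟩
  · constructor
    · rintro ⟨A, hA, rfl⟩; exact ⟨A, hA, rfl⟩
    · rintro ⟨A, hA, rfl⟩; exact ⟨A, hA, rfl⟩

/-- an alternation of length 5, spelled out -/
theorem altG5 {V L : Type} [Preorder L] {pos : V → L} {A B : V → Prop} {a b c d e : V}
    (ha : A a ∧ ¬ B a) (hb : B b ∧ ¬ A b) (hc : A c ∧ ¬ B c) (hd : B d ∧ ¬ A d) (he : A e ∧ ¬ B e)
    (h1 : pos a < pos b) (h2 : pos b < pos c) (h3 : pos c < pos d) (h4 : pos d < pos e) :
    AltG 5 pos A B := by
  refine ⟨fun i => if i = 0 then a else if i = 1 then b else if i = 2 then c else if i = 3 then d else e, ?_, ?_⟩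
  · intro i hi
    interval_cases i
    · simpa using ha
    · simpa using hb
    · simpa using hc
    · rw [if_neg (by decide)]; simpa using hd
    · rw [if_pos (by decide)]; simpa using he
  · intro i j hij hj
    have h12 := h1.trans h2
    have h13 := h12.trans h3
    have h14 := h13.trans h4
    have h23 := h2.trans h3
    have h24 := h23.trans h4
    have h34 := h3.trans h4
    interval_cases j
    · omega
    · interval_cases i; simpa using h1
    · interval_cases i <;> simpa
    · interval_cases i <;> simpa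
    · interval_cases i <;> simpa

/-- an alternation of length 4, spelled out -/
theorem altG4 {V L : Type} [Preorder L] {pos : V → L} {A B : V → Prop} {a b c d : V}
    (ha : A a ∧ ¬ B a) (hb : B b ∧ ¬ A b) (hc : A c ∧ ¬ B c) (hd : B d ∧ ¬ A d)
    (h1 : pos a < pos b) (h2 : pos b < pos c) (h3 : pos c < pos d) :
    AltG 4 pos A B := by
  refine ⟨fun i => if i = 0 then a else if i = 1 then b else if i = 2 then c else d, ?_, ?_⟩
  · intro i hi
    interval_cases i
    · simpa using ha
    · simpa using hb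
    · simpa using hc
    · rw [if_neg (by decide)]; simpa using hd
  · intro i j hij hj
    have h12 := h1.trans h2
    have h13 := h12.trans h3
    have h23 := h2.trans h3
    interval_cases j
    · omega
    · interval_cases i; simpa using h1
    · interval_cases i <;> simpa
    · interval_cases i <;> simpa

/-- the arithmetic behind the gadget: five points, two further points in different gaps -/
theorem five {g : Fin 5 → ℕ} (hg : StrictMono g) {a b : ℕ} (hab : a < b)
    (h1 : ∀ i j k, i < j → j < k → ¬ (a < g i ∧ g k < b))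
    (h2 : ∀ i j k, i < j → j < k → ¬ (a < g i ∧ g i < b ∧ b < g j))
    (h3 : ∀ i j k, i < j → j < k → ¬ (g j < a ∧ a < g k ∧ g k < b))
    (m : Fin 5) (hm1 : a < g m) (hm2 : g m < b) (hne : ∀ i, g i ≠ a ∧ g i ≠ b) : False := by
  have s01 : g 0 < g 1 := hg (by decide)
  have s12 : g 1 < g 2 := hg (by decide)
  have s23 : g 2 < g 3 := hg (by decide)
  have s34 : g 3 < g 4 := hg (by decide)
  have n0 := hne 0
  have n1 := hne 1
  have n2 := hne 2
  have n3 := hne 3
  have n4 := hne 4
  have a1 := h1 0 1 2 (by decide) (by decide)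
  have a2 := h1 1 2 3 (by decide) (by decide)
  have a3 := h1 2 3 4 (by decide) (by decide)
  have b1 := h2 0 1 4 (by decide) (by decide)
  have b2 := h2 1 2 4 (by decide) (by decide)
  have b3 := h2 2 3 4 (by decide) (by decide)
  have c1 := h3 0 1 2 (by decide) (by decide)
  have c2 := h3 0 2 3 (by decide) (by decide)
  have c3 := h3 0 3 4 (by decide) (by decide)
  fin_cases m
  · simp only [Fin.zero_eta] at hm1 hm2
    omega
  · simp only [Fin.mk_one] at hm1 hm2
    omega
  · simp only [Fin.reduceFinMk] at hm1 hm2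
    omega
  · simp only [Fin.reduceFinMk] at hm1 hm2
    omega
  · simp only [Fin.reduceFinMk] at hm1 hm2
    omega


/-- all old vertices lie in one gap of the five vertices `n + 1, …, n + 5` -/
theorem one_gap {H : Hyp} {pos : ℕ → ℕ} (h1 : Set.InjOn pos {v | v ∈ (lift5 H).1})
    (h2 : ∀ A ∈ (lift5 H).2, ∀ B ∈ (lift5 H).2, ¬ AltG 5 pos (· ∈ A) (· ∈ B)) {v : ℕ} (hv : v < H.n)
    {f : ℕ} (hf : H.n < f) (hf' : f < H.n + 6) : (pos v < pos f ↔ pos H.n < pos f) := by
  set n := H.n with hn
  have inj : ∀ u v, u < n + 6 → v < n + 6 → pos u = pos v → u = v := by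
    intro u v hu hv h
    exact h1 (by simpa [lift5] using hu) (by simpa [lift5] using hv) h
  -- the five vertices in increasing order
  let σ : Equiv.Perm (Fin 5) := Tuple.sort (fun i : Fin 5 => pos (n + 1 + i))
  have hσ : StrictMono fun i => pos (n + 1 + σ i) := by
    refine Monotone.strictMono_of_injective (Tuple.monotone_sort (fun i : Fin 5 => pos (n + 1 + i))) ?_
    intro i j h
    have := inj _ _ (by omega) (by omega) h
    exact σ.injective (Fin.ext (by omega))
  have edge1 : ∀ j : Fin 5, [n, v, n + 1 + (σ j : ℕ)] ∈ (lift5 H).2 := fun j =>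
    mem_lift5.2 (Or.inl ⟨v, _, hv, by omega, by omega, rfl⟩)
  have edge2 : ∀ i j : Fin 5, i ≠ j → ∃ B ∈ (lift5 H).2, ∀ w, w ∈ B ↔ (w = n + 1 + σ i ∨ w = n + 1 + σ j) := by
    intro i j hij
    have hne : (σ i : ℕ) ≠ σ j := fun h => hij (σ.injective (Fin.ext h))
    rcases lt_or_gt_of_ne hne with h | h
    · exact ⟨_, mem_lift5.2 (Or.inr (Or.inl ⟨n + 1 + σ i, n + 1 + σ j, by omega, by omega, by omega, rfl⟩)),
        by simp⟩
    · exact ⟨_, mem_lift5.2 (Or.inr (Or.inl ⟨n + 1 + σ j, n + 1 + σ i, by omega, by omega, by omega, rfl⟩)),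
        by simp [or_comm]⟩
  have hs : ∀ i j : Fin 5, i ≠ j → (n + 1 + σ i : ℕ) ≠ n + 1 + σ j := by
    intro i j hij h
    exact hij (σ.injective (Fin.ext (by omega)))
  have main : ∀ a b : ℕ, (a = n ∧ b = v ∨ a = v ∧ b = n) → pos a < pos b → ∀ m : Fin 5,
      pos a < pos (n + 1 + σ m) → pos (n + 1 + σ m) < pos b → False := by
    intro a b hab hlt m hm1 hm2
    have hal : a ≤ n := by omega
    have hbl : b ≤ n := by omega
    have ina : ∀ j : Fin 5, a ∈ [n, v, n + 1 + (σ j : ℕ)] := by intro j; simp; omega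
    have inb : ∀ j : Fin 5, b ∈ [n, v, n + 1 + (σ j : ℕ)] := by intro j; simp; omega
    refine five (g := fun i => pos (n + 1 + σ i)) hσ hlt ?_ ?_ ?_ m hm1 hm2 ?_
    · rintro i j k hij hjk ⟨q1, q2⟩
      obtain ⟨B, hB, hBm⟩ := edge2 i k (hij.trans hjk).ne
      have k1 := hs i j hij.ne
      have k2 := hs k j hjk.ne'
      have nin : ∀ w, (w = n + 1 + σ i ∨ w = n + 1 + σ k) → w ∉ [n, v, n + 1 + (σ j : ℕ)] := by
        intro w hw; simp; omega
      refine h2 _ (edge1 j) B hB (altG5 (a := a) (b := n + 1 + σ i) (c := n + 1 + σ j) (d := n + 1 + σ k)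
        (e := b) ⟨ina j, ?_⟩ ⟨?_, nin _ (Or.inl rfl)⟩ ⟨by simp, ?_⟩ ⟨?_, nin _ (Or.inr rfl)⟩
        ⟨inb j, ?_⟩ q1 (hσ hij) (hσ hjk) q2)
      · rw [hBm]; omega
      · rw [hBm]; exact Or.inl rfl
      · rw [hBm]; omega
      · rw [hBm]; exact Or.inr rfl
      · rw [hBm]; omega
    · rintro i j k hij hjk ⟨q1, q2, q3⟩
      obtain ⟨B, hB, hBm⟩ := edge2 i j hij.ne
      have k1 := hs i k (hij.trans hjk).ne
      have k2 := hs j k hjk.ne
      have nin : ∀ w, (w = n + 1 + σ i ∨ w = n + 1 + σ j) → w ∉ [n, v, n + 1 + (σ k : ℕ)] := by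
        intro w hw; simp; omega
      refine h2 _ (edge1 k) B hB (altG5 (a := a) (b := n + 1 + σ i) (c := b) (d := n + 1 + σ j)
        (e := n + 1 + σ k) ⟨ina k, ?_⟩ ⟨?_, nin _ (Or.inl rfl)⟩ ⟨inb k, ?_⟩ ⟨?_, nin _ (Or.inr rfl)⟩
        ⟨by simp, ?_⟩ q1 q2 q3 (hσ hjk))
      · rw [hBm]; omega
      · rw [hBm]; exact Or.inl rfl
      · rw [hBm]; omega
      · rw [hBm]; exact Or.inr rfl
      · rw [hBm]; omega
    · rintro i j k hij hjk ⟨q1, q2, q3⟩
      obtain ⟨B, hB, hBm⟩ := edge2 j k hjk.ne
      have k1 := hs i j hij.ne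
      have k2 := hs i k (hij.trans hjk).ne
      have nin : ∀ w, (w = n + 1 + σ j ∨ w = n + 1 + σ k) → w ∉ [n, v, n + 1 + (σ i : ℕ)] := by
        intro w hw; simp; omega
      refine h2 _ (edge1 i) B hB (altG5 (a := n + 1 + σ i) (b := n + 1 + σ j) (c := a) (d := n + 1 + σ k)
        (e := b) ⟨by simp, ?_⟩ ⟨?_, nin _ (Or.inl rfl)⟩ ⟨ina i, ?_⟩ ⟨?_, nin _ (Or.inr rfl)⟩
        ⟨inb i, ?_⟩ (hσ hij) q1 q2 q3)
      · rw [hBm]; omega
      · rw [hBm]; exact Or.inl rfl
      · rw [hBm]; omega
      · rw [hBm]; exact Or.inr rfl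
      · rw [hBm]; omega
    · intro i
      constructor
      · intro h
        have := inj _ _ (by omega) (by omega) h
        omega
      · intro h
        have := inj _ _ (by omega) (by omega) h
        omega
  -- `f` is one of the five
  obtain ⟨m, hm⟩ : ∃ m : Fin 5, n + 1 + (σ m : ℕ) = f := by
    refine ⟨σ.symm ⟨f - (n + 1), by omega⟩, ?_⟩
    simp only [Equiv.apply_symm_apply]
    omega
  have ne1 : pos v ≠ pos f := fun h => by have := inj _ _ (by omega) (by omega) h; omega
  have ne2 : pos n ≠ pos f := fun h => by have := inj _ _ (by omega) (by omega) h; omega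
  rw [← hm] at ne1 ne2 ⊢
  constructor
  · intro h
    by_contra hc
    exact main v n (Or.inr ⟨rfl, rfl⟩) (by omega) m h (by omega)
  · intro h
    by_contra hc
    exact main n v (Or.inl ⟨rfl, rfl⟩) (by omega) m h (by omega)

theorem two_of_three {a b x y z : ℕ} (hx : x = a ∨ x = b) (hy : y = a ∨ y = b) (hz : z = a ∨ z = b)
    (h1 : x ≠ y) (h2 : x ≠ z) (h3 : y ≠ z) : False := by omega

theorem e1 {n w f x : ℕ} {P : Prop} (h : x = n ∨ x = w ∨ x = f) (h2 : ¬ ((n ≤ x ∧ x < n + 6) ∨ P))
    (hf : n < f) (hf' : f < n + 6) : x = w ∨ x = n + 1 := by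
  rw [not_or] at h2
  omega

theorem e2 {n w f x : ℕ} {P : Prop} (h : x = n ∨ x = w ∨ x = f)
    (h2 : ¬ ((x = n ∨ (n + 2 ≤ x ∧ x < n + 6)) ∨ P)) (hf : n < f) (hf' : f < n + 6) :
    x = w ∨ x = n + 1 := by
  rw [not_or] at h2
  omega

theorem e3 {n f g x : ℕ} {P : Prop} (h : x = f ∨ x = g) (h2 : ¬ ((n ≤ x ∧ x < n + 6) ∨ P))
    (hf : n < f) (hf' : f < n + 6) (hg : n < g) (hg' : g < n + 6) : x = n + 1 := by
  rw [not_or] at h2
  omega

theorem e4 {n f g x : ℕ} {P : Prop} (h : x = f ∨ x = g)
    (h2 : ¬ ((x = n ∨ (n + 2 ≤ x ∧ x < n + 6)) ∨ P)) (hf : n < f) (hf' : f < n + 6) (hg : n < g)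
    (hg' : g < n + 6) : x = n + 1 := by
  rw [not_or] at h2
  omega

theorem dif1 {n v : ℕ} {P Q : Prop} (h1 : (n ≤ v ∧ v < n + 6) ∨ P) (h2 : ¬ ((n ≤ v ∧ v < n + 6) ∨ Q)) :
    v = n + 1 ∨ (P ∧ ¬ Q) := by
  rw [not_or] at h2
  exact Or.inr ⟨h1.resolve_left h2.1, h2.2⟩

theorem dif2 {n v : ℕ} {P Q : Prop} (h1 : (n ≤ v ∧ v < n + 6) ∨ P)
    (h2 : ¬ ((v = n ∨ (n + 2 ≤ v ∧ v < n + 6)) ∨ Q)) : v = n + 1 ∨ (P ∧ ¬ Q) := by
  rw [not_or] at h2
  rcases h1 with h1 | h1
  · left; omega
  · exact Or.inr ⟨h1, h2.2⟩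

theorem dif3 {n v : ℕ} {P Q : Prop} (h1 : (v = n ∨ (n + 2 ≤ v ∧ v < n + 6)) ∨ P)
    (h2 : ¬ ((n ≤ v ∧ v < n + 6) ∨ Q)) : v = n + 1 ∨ (P ∧ ¬ Q) := by
  rw [not_or] at h2
  rcases h1 with h1 | h1
  · omega
  · exact Or.inr ⟨h1, h2.2⟩

theorem dif4 {n v : ℕ} {P Q : Prop} (h1 : (v = n ∨ (n + 2 ≤ v ∧ v < n + 6)) ∨ P)
    (h2 : ¬ ((v = n ∨ (n + 2 ≤ v ∧ v < n + 6)) ∨ Q)) : v = n + 1 ∨ (P ∧ ¬ Q) := by
  rw [not_or] at h2
  exact Or.inr ⟨h1.resolve_left h2.1, h2.2⟩

theorem lift5_sub {H : Hyp} (hH : Valid H) : ∀ A ∈ (lift5 H).2, ∀ v ∈ A, v ∈ (lift5 H).1 := by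
  have hE : ∀ A ∈ H.E, ∀ v ∈ A, v < H.n := fun A hA => (hH.1 A hA).2
  have hsub : ∀ A ∈ (lift5 H).2, ∀ v ∈ A, v < H.n + 6 := by
    intro A' hA' v hv
    rcases mem_lift5.1 hA' with ⟨w, f, k1, k2, k3, rfl⟩ | ⟨f, g, k1, k2, k3, rfl⟩ | ⟨A, hA, rfl⟩ | ⟨A, hA, rfl⟩
    · simp at hv; omega
    · simp at hv; omega
    · rw [mem_full] at hv
      rcases hv with hv | hv
      · omega
      · have := hE A hA v hv; omega
    · rw [mem_almost] at hv
      rcases hv with hv | hv
      · omega
      · have := hE A hA v hv; omega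
  intro A hA v hv
  simpa [lift5] using hsub A hA v hv

theorem lift5_iff {H : Hyp} (hH : Valid H) :
    FreeV ℕ 5 (lift5 H).1 (lift5 H).2 ↔ AltFree 4 H := by
  have hE : ∀ A ∈ H.E, ∀ v ∈ A, v < H.n := fun A hA => (hH.1 A hA).2
  rw [altFree_iff]
  constructor
  · rintro ⟨pos, h1, h2⟩
    have gapp := fun v hv => one_gap h1 h2 (v := v) hv (f := H.n + 1) (by omega) (by omega)
    set n := H.n with hn
    have inj : ∀ u v, u < n + 6 → v < n + 6 → pos u = pos v → u = v := by
      intro u v hu hv h
      exact h1 (by simpa [lift5] using hu) (by simpa [lift5] using hv) h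
    refine ⟨pos, ?_, ?_⟩
    · intro u hu v hv h
      simp only [List.mem_range, Set.mem_ofPred_eq] at hu hv
      exact inj u v (by omega) (by omega) h
    · rintro A hA B hB ⟨x, hx1, hx2⟩
      have hm := altG_mem (L := ℕ) (pos := pos) hx1 (S := fun v => v < n) (hE A hA) (hE B hB)
      have a0 := hx1 0 (by omega)
      have a1 := hx1 1 (by omega)
      have a2 := hx1 2 (by omega)
      have a3 := hx1 3 (by omega)
      rw [if_pos (by decide)] at a0 a2
      rw [if_neg (by decide)] at a1 a3
      have m0 := hm 0 (by omega)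
      have m1 := hm 1 (by omega)
      have m2 := hm 2 (by omega)
      have m3 := hm 3 (by omega)
      have l1 := hx2 0 1 (by omega) (by omega)
      have l2 := hx2 1 2 (by omega) (by omega)
      have l3 := hx2 2 3 (by omega) (by omega)
      have nA : ∀ v, n ≤ v → v ∉ A := fun v hv h => by have := hE A hA v h; omega
      have nB : ∀ v, n ≤ v → v ∉ B := fun v hv h => by have := hE B hB v h; omega
      have g0 := gapp _ m0
      have g3 := gapp _ m3
      have ne0 : pos (x 0) ≠ pos (n + 1) := fun h => by have := inj _ _ (by omega) (by omega) h; omega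
      by_cases hc : pos n < pos (n + 1)
      · -- the old vertices come before `n + 1`
        refine h2 _ (mem_lift5.2 (Or.inr (Or.inr (Or.inl ⟨A, hA, rfl⟩)))) _
          (mem_lift5.2 (Or.inr (Or.inr (Or.inr ⟨B, hB, rfl⟩))))
          (altG5 (a := x 0) (b := x 1) (c := x 2) (d := x 3) (e := n + 1) ?_ ?_ ?_ ?_ ?_ l1 l2 l3 (g3.2 hc))
        · rw [mem_full, mem_almost]
          exact ⟨Or.inr a0.1, by rintro (h | h); · omega
                                 · exact a0.2 h⟩
        · rw [mem_full, mem_almost]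
          exact ⟨Or.inr a1.1, by rintro (h | h); · omega
                                 · exact a1.2 h⟩
        · rw [mem_full, mem_almost]
          exact ⟨Or.inr a2.1, by rintro (h | h); · omega
                                 · exact a2.2 h⟩
        · rw [mem_full, mem_almost]
          exact ⟨Or.inr a3.1, by rintro (h | h); · omega
                                 · exact a3.2 h⟩
        · rw [mem_full, mem_almost]
          exact ⟨Or.inl (by omega), by rintro (h | h); · omega
                                       · exact nB _ (by omega) h⟩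
      · -- the old vertices come after `n + 1`
        have hlt : pos (n + 1) < pos (x 0) := by omega
        refine h2 _ (mem_lift5.2 (Or.inr (Or.inr (Or.inl ⟨B, hB, rfl⟩)))) _
          (mem_lift5.2 (Or.inr (Or.inr (Or.inr ⟨A, hA, rfl⟩))))
          (altG5 (a := n + 1) (b := x 0) (c := x 1) (d := x 2) (e := x 3) ?_ ?_ ?_ ?_ ?_ hlt l1 l2 l3)
        · rw [mem_full, mem_almost]
          exact ⟨Or.inl (by omega), by rintro (h | h); · omega
                                       · exact nA _ (by omega) h⟩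
        · rw [mem_full, mem_almost]
          exact ⟨Or.inr a0.1, by rintro (h | h); · omega
                                 · exact a0.2 h⟩
        · rw [mem_full, mem_almost]
          exact ⟨Or.inr a1.1, by rintro (h | h); · omega
                                 · exact a1.2 h⟩
        · rw [mem_full, mem_almost]
          exact ⟨Or.inr a2.1, by rintro (h | h); · omega
                                 · exact a2.2 h⟩
        · rw [mem_full, mem_almost]
          exact ⟨Or.inr a3.1, by rintro (h | h); · omega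
                                 · exact a3.2 h⟩
  · rintro ⟨pos, h1, h2⟩
    set n := H.n with hn
    have hsub : ∀ A ∈ (lift5 H).2, ∀ v ∈ A, v < n + 6 := fun A hA v hv => by
      simpa [lift5] using lift5_sub hH A hA v hv
    refine FreeV.rank (L := ℕ ×ₗ ℕ) (lift5_sub hH) ?_
    let q : ℕ → ℕ ×ₗ ℕ := fun v => if v < n then toLex (1, pos v) else if v = n then toLex (0, n + 6)
      else toLex (0, v)
    have q1 : ∀ u v, u < n → v < n → q u < q v → pos u < pos v := by
      intro u v hu hv h
      simp only [q, hu, hv, if_true, Prod.Lex.toLex_lt_toLex] at h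
      simpa using h
    have q2 : ∀ u v, v = n → q u < q v → u < n + 6 → n < u := by
      intro u v hv h hu
      subst hv
      simp only [q, lt_irrefl, if_false, if_true] at h
      by_cases c1 : u < n
      · simp only [c1, if_true, Prod.Lex.toLex_lt_toLex] at h; omega
      · by_cases c2 : u = n
        · simp only [c2, lt_irrefl, if_false, if_true] at h
        · omega
    have q3 : ∀ u v, n < v → v < n + 6 → q u < q v → n < u ∧ u < v := by
      intro u v hv hv' h
      simp only [q, show ¬ v < n by omega, show ¬ v = n by omega, if_false] at h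
      by_cases c1 : u < n
      · simp only [c1, if_true, Prod.Lex.toLex_lt_toLex] at h; omega
      · by_cases c2 : u = n
        · rw [c2, if_neg (lt_irrefl _), if_pos rfl, Prod.Lex.toLex_lt_toLex] at h
          clear * - h hv hv'; simp only at h; omega
        · simp only [c1, c2, if_false, Prod.Lex.toLex_lt_toLex] at h; clear * - h hv hv' c1 c2; omega
    refine ⟨q, ?_, ?_⟩
    · intro u hu v hv h
      have hu' : u < n + 6 := by simpa [lift5] using hu
      have hv' : v < n + 6 := by simpa [lift5] using hv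
      have e1 := congrArg (fun z => (ofLex z).1) h
      have e2 := congrArg (fun z => (ofLex z).2) h
      simp only [q] at e1 e2
      by_cases c1 : u < n
      · by_cases d1 : v < n
        · simp only [c1, d1, if_true, ofLex_toLex] at e2
          exact h1 (by simpa using c1) (by simpa using d1) e2
        · exfalso
          by_cases d2 : v = n
          · simp [c1, d2] at e1
          · simp [c1, d1, d2] at e1
      · by_cases d1 : v < n
        · exfalso
          by_cases d2 : u = n
          · simp [d1, d2] at e1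
          · simp [c1, d1, d2] at e1
        · by_cases c2 : u = n
          · by_cases d2 : v = n
            · omega
            · simp [d1, d2, c2] at e2; omega
          · by_cases d2 : v = n
            · simp [c1, d2, c2] at e2; omega
            · simpa [c1, d1, c2, d2] using e2
    · intro P hP Q hQ
      rintro ⟨x, hx1, hx2⟩
      have hm := altG_mem (L := ℕ ×ₗ ℕ) (pos := q) hx1 (S := fun v => v < n + 6) (hsub P hP) (hsub Q hQ)
      have a0 := hx1 0 (by omega)
      have a1 := hx1 1 (by omega)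
      have a2 := hx1 2 (by omega)
      have a3 := hx1 3 (by omega)
      have a4 := hx1 4 (by omega)
      rw [if_pos (by decide)] at a0 a2 a4
      rw [if_neg (by decide)] at a1 a3
      have m0 := hm 0 (by omega)
      have m1 := hm 1 (by omega)
      have m2 := hm 2 (by omega)
      have m3 := hm 3 (by omega)
      have m4 := hm 4 (by omega)
      have l1 := hx2 0 1 (by omega) (by omega)
      have l2 := hx2 1 2 (by omega) (by omega)
      have l3 := hx2 2 3 (by omega) (by omega)
      have l4 := hx2 3 4 (by omega) (by omega)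
      have q2' : ∀ u v, q u < q v → u < n + 6 → v ≠ n ∨ n < u := fun u v h hu => by
        by_cases hv : v = n
        · exact Or.inr (q2 u v hv h hu)
        · exact Or.inl hv
      have q3' : ∀ u v, q u < q v → v < n + 6 → v ≤ n ∨ (n < u ∧ u < v) := fun u v h hv' => by
        by_cases hv : n < v
        · exact Or.inr (q3 u v hv hv' h)
        · exact Or.inl (by omega)
      have r1 := q2' _ _ l1 m0
      have r2 := q2' _ _ l2 m1
      have r3 := q2' _ _ l3 m2
      have r4 := q2' _ _ l4 m3
      have t1 := q3' _ _ l1 m1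
      have t2 := q3' _ _ l2 m2
      have t3 := q3' _ _ l3 m3
      have t4 := q3' _ _ l4 m4
      have ne : ∀ i j, i < j → j < 5 → x i ≠ x j := by
        intro i j hij hj h
        have := hx2 i j hij hj
        rw [h] at this
        exact lt_irrefl _ this
      have n02 := ne 0 2 (by omega) (by omega)
      have n04 := ne 0 4 (by omega) (by omega)
      have n24 := ne 2 4 (by omega) (by omega)
      have n13 := ne 1 3 (by omega) (by omega)
      have s1 := fun h h' => q1 (x 1) (x 2) h h' l2
      have s2 := fun h h' => q1 (x 2) (x 3) h h' l3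
      have s3 := fun h h' => q1 (x 3) (x 4) h h' l4
      clear hx1 hx2 hm l1 l2 l3 l4 ne
      generalize x 0 = x0 at *
      generalize x 1 = x1 at *
      generalize x 2 = x2 at *
      generalize x 3 = x3 at *
      generalize x 4 = x4 at *
      -- the common part of the four cases in which both hyperedges contain `n`
      have common : ∀ A ∈ H.E, ∀ B ∈ H.E,
          (∀ v, v ∈ P → v ∉ Q → v = n + 1 ∨ (v ∈ A ∧ v ∉ B)) →
          (∀ v, v ∈ Q → v ∉ P → v = n + 1 ∨ (v ∈ B ∧ v ∉ A)) → False := by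
        intro A hA B hB k1 k2
        have b1 := k2 _ a1.1 a1.2
        have b2 := k1 _ a2.1 a2.2
        have b3 := k2 _ a3.1 a3.2
        have b4 := k1 _ a4.1 a4.2
        have c1 : ¬ x1 = n + 1 := by omega
        have c2 : ¬ x2 = n + 1 := by omega
        have c3 : ¬ x3 = n + 1 := by omega
        have c4 : ¬ x4 = n + 1 := by omega
        replace b1 := b1.resolve_left c1
        replace b2 := b2.resolve_left c2
        replace b3 := b3.resolve_left c3
        replace b4 := b4.resolve_left c4
        have d1 := hE B hB _ b1.1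
        have d2 := hE A hA _ b2.1
        have d3 := hE B hB _ b3.1
        have d4 := hE A hA _ b4.1
        exact h2 B hB A hA (altG4 (a := x1) (b := x2) (c := x3) (d := x4) b1 b2 b3 b4
          (s1 d1 d2) (s2 d2 d3) (s3 d3 d4))
      rcases mem_lift5.1 hP with ⟨w, f, k1, k2, k3, rfl⟩ | ⟨f, g, k1, k2, k3, rfl⟩ | ⟨A, hA, rfl⟩ | ⟨A, hA, rfl⟩
      · simp only [List.mem_cons, List.not_mem_nil, or_false] at a0 a1 a2 a3 a4
        rcases mem_lift5.1 hQ with ⟨w', f', k1', k2', k3', rfl⟩ | ⟨f', g', k1', k2', k3', rfl⟩ | ⟨B, hB, rfl⟩ | ⟨B, hB, rfl⟩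
        · simp only [List.mem_cons, List.not_mem_nil, or_false] at a0 a1 a2 a3 a4
          have b0 : x0 = w ∨ x0 = f := by clear * - a0; omega
          have b2 : x2 = w ∨ x2 = f := by clear * - a2; omega
          have b4 : x4 = w ∨ x4 = f := by clear * - a4; omega
          exact two_of_three b0 b2 b4 n02 n04 n24
        · simp only [List.mem_cons, List.not_mem_nil, or_false] at a0 a1 a2 a3 a4
          have b1 : n < x1 := by clear * - a1 k1' k2'; omega
          have b3 : n < x3 := by clear * - a3 k1' k2'; omega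
          have b2 : n < x2 := by clear * - t3 b3; omega
          have b0 : n < x0 := by clear * - t1 b1; omega
          have c2 : x2 = f := by clear * - a2 b2 k1; omega
          have c0 : x0 = f := by clear * - a0 b0 k1; omega
          exact n02 (c0.trans c2.symm)
        · simp only [mem_full] at a0 a1 a2 a3 a4
          exact two_of_three (e1 a0.1 a0.2 k2 k3) (e1 a2.1 a2.2 k2 k3) (e1 a4.1 a4.2 k2 k3) n02 n04 n24
        · simp only [mem_almost] at a0 a1 a2 a3 a4
          exact two_of_three (e2 a0.1 a0.2 k2 k3) (e2 a2.1 a2.2 k2 k3) (e2 a4.1 a4.2 k2 k3) n02 n04 n24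
      · simp only [List.mem_cons, List.not_mem_nil, or_false] at a0 a1 a2 a3 a4
        exact two_of_three a0.1 a2.1 a4.1 n02 n04 n24
      · simp only [mem_full] at a0 a1 a2 a3 a4
        rcases mem_lift5.1 hQ with ⟨w', f', k1', k2', k3', rfl⟩ | ⟨f', g', k1', k2', k3', rfl⟩ | ⟨B, hB, rfl⟩ | ⟨B, hB, rfl⟩
        · simp only [List.mem_cons, List.not_mem_nil, or_false] at a0 a1 a2 a3 a4
          have b1 := e1 a1.1 a1.2 k2' k3'
          have b3 := e1 a3.1 a3.2 k2' k3'
          clear * - b1 b3 n13 t1 t3 m0 m2 k1' t2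
          omega
        · simp only [List.mem_cons, List.not_mem_nil, or_false] at a0 a1 a2 a3 a4
          have b1 := e3 a1.1 a1.2 k1' (k2'.trans k3') (k1'.trans k2') k3'
          have b3 := e3 a3.1 a3.2 k1' (k2'.trans k3') (k1'.trans k2') k3'
          exact n13 (b1.trans b3.symm)
        · exact common A hA B hB (fun v g1 g2 => dif1 (mem_full.1 g1) fun h => g2 (mem_full.2 h))
            (fun v g1 g2 => dif1 (mem_full.1 g1) fun h => g2 (mem_full.2 h))
        · exact common A hA B hB (fun v g1 g2 => dif2 (mem_full.1 g1) fun h => g2 (mem_almost.2 h))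
            (fun v g1 g2 => dif3 (mem_almost.1 g1) fun h => g2 (mem_full.2 h))
      · simp only [mem_almost] at a0 a1 a2 a3 a4
        rcases mem_lift5.1 hQ with ⟨w', f', k1', k2', k3', rfl⟩ | ⟨f', g', k1', k2', k3', rfl⟩ | ⟨B, hB, rfl⟩ | ⟨B, hB, rfl⟩
        · simp only [List.mem_cons, List.not_mem_nil, or_false] at a0 a1 a2 a3 a4
          have b1 := e2 a1.1 a1.2 k2' k3'
          have b3 := e2 a3.1 a3.2 k2' k3'
          clear * - b1 b3 n13 t1 t3 m0 m2 k1' t2
          omega
        · simp only [List.mem_cons, List.not_mem_nil, or_false] at a0 a1 a2 a3 a4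
          have b1 := e4 a1.1 a1.2 k1' (k2'.trans k3') (k1'.trans k2') k3'
          have b3 := e4 a3.1 a3.2 k1' (k2'.trans k3') (k1'.trans k2') k3'
          exact n13 (b1.trans b3.symm)
        · exact common A hA B hB (fun v g1 g2 => dif3 (mem_almost.1 g1) fun h => g2 (mem_full.2 h))
            (fun v g1 g2 => dif2 (mem_full.1 g1) fun h => g2 (mem_almost.2 h))
        · exact common A hA B hB (fun v g1 g2 => dif4 (mem_almost.1 g1) fun h => g2 (mem_almost.2 h))
            (fun v g1 g2 => dif4 (mem_almost.1 g1) fun h => g2 (mem_almost.2 h))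

theorem hard5 (h : NPHard fun H : {H : Hyp // Valid H} => AltFree 4 H.1) :
    NPHard fun H : {H : Hyp // Valid H} => AltFree 5 H.1 := by
  refine h.red ⟨fun H => ⟨inst (lift5 H.1), valid_inst _⟩, PT.subtype (lift5_pt.comp (PT.val PT.id)) _, ?_⟩
  rintro ⟨H, hH⟩
  simp only
  rw [inst_iff, lift5_iff hH]
  · exact List.nodup_range
  · exact lift5_sub hH

end Pool.Agent.Q9h3.AB
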