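import Pool.Agent.Q9h3.AB.Hard4
import Pool.Agent.Q9h3.AB.Lift2
import Pool.Agent.Q9h3.AB.Lift5
import Pool.Agent.Q9h3.AB.InNP

/-!
# Alternation-freeness of length at least 4 is NP-complete
-/

set_option autoImplicit false

namespace Pool.Agent.Q9h3.AB

open Pool.Agent.Lib.CX

theorem hardAll (t : ℕ) : (NPHard fun H : {H : Hyp // Valid H} => AltFree (t + 4) H.1) ∧
    (NPHard fun H : {H : Hyp // Valid H} => AltFree (t + 5) H.1) := by
  induction t with
  | zero => exact ⟨hard4, hard5 hard4⟩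
  | succ t ih => exact ⟨ih.2, hard_succ2 ih.1⟩

theorem complete_of_four_le {t : ℕ} (ht : 4 ≤ t) :
    NPComplete fun H : {H : Hyp // Valid H} => AltFree t H.1 := by
  obtain ⟨s, rfl⟩ : ∃ s, t = s + 4 := ⟨t - 4, by omega⟩
  exact ⟨inNP _, (hardAll s).1⟩

end Pool.Agent.Q9h3.AB
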