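import Pool.Agent.Q9h3.AB.Cyc

/-!
# The hypergraph of a family of non-crossing conditions
-/

set_option autoImplicit false
set_option synthInstance.maxSize 2000

namespace Pool.Agent.Q9h3.AB

open Pool.Agent.Lib.CX

/-- four elements: the chords `(a, b)` and `(c, d)` shall not cross -/
abbrev Quad := (ℕ × ℕ) × (ℕ × ℕ)

/-- the vertices: `(k, x)` for `x < n` is the copy of the element `x` in layer `k`, and `(k, n)` is
the centre of the layer `k` -/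
def hv (a : List Unit × List Quad) : List (ℕ × ℕ) :=
  List.range a.2.length ×ˢ List.range (a.1.length + 1)

/-- the hyperedges -/
def he (a : List Unit × List Quad) : List (List (ℕ × ℕ)) :=
  ((List.range a.2.length ×ˢ List.range a.1.length).map fun p => [(p.1, a.1.length), p]) ++
  ((List.range a.2.length).map fun k => (hv a).filter fun v => decide (v.2 = a.1.length ∨ v.1 < k ∨
    v = (k, (a.2.getD k ((0, 0), (0, 0))).1.1) ∨ v = (k, (a.2.getD k ((0, 0), (0, 0))).1.2))) ++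
  ((List.range a.2.length).map fun k => (hv a).filter fun v => decide (v.2 = a.1.length ∨ v.1 < k ∨
    v = (k, (a.2.getD k ((0, 0), (0, 0))).2.1) ∨ v = (k, (a.2.getD k ((0, 0), (0, 0))).2.2))) ++
  (((List.range a.2.length ×ˢ List.range a.1.length).filter fun p => decide (p.1 + 1 < a.2.length)).map
    fun p => (hv a).filter fun v => decide (v.2 = a.1.length ∨ (v.1 ≤ p.1 ∧ v ≠ p) ∨ v = (p.1 + 1, p.2)))

theorem hyp_pt : PT fun a : List Unit × List Quad => (hv a, he a) := by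
  unfold he hv
  fun_prop

theorem mem_hv {a : List Unit × List Quad} {v : ℕ × ℕ} :
    v ∈ hv a ↔ v.1 < a.2.length ∧ v.2 ≤ a.1.length := by
  unfold hv
  rw [List.mem_product]
  simp [Nat.lt_succ_iff]

theorem hv_nodup (a : List Unit × List Quad) : (hv a).Nodup :=
  List.nodup_range.product List.nodup_range

section
variable {a : List Unit × List Quad} {n K : ℕ} (hn : a.1.length = n) (hK : a.2.length = K)

/-- the `k`-th condition -/
def qd (a : List Unit × List Quad) (k : ℕ) : Quad := a.2.getD k ((0, 0), (0, 0))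

include hn hK in
theorem mem_he {A : List (ℕ × ℕ)} : A ∈ he a ↔
    (∃ k x, k < K ∧ x < n ∧ A = [(k, n), (k, x)]) ∨
    (∃ k, k < K ∧ A = (hv a).filter fun v => decide (v.2 = n ∨ v.1 < k ∨
      v = (k, (qd a k).1.1) ∨ v = (k, (qd a k).1.2))) ∨
    (∃ k, k < K ∧ A = (hv a).filter fun v => decide (v.2 = n ∨ v.1 < k ∨
      v = (k, (qd a k).2.1) ∨ v = (k, (qd a k).2.2))) ∨
    (∃ k x, k + 1 < K ∧ x < n ∧ A = (hv a).filter fun v => decide (v.2 = n ∨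
      (v.1 ≤ k ∧ v ≠ (k, x)) ∨ v = (k + 1, x))) := by
  subst hn hK
  unfold he qd
  have hp : ∀ {k l : ℕ} {p : ℕ × ℕ}, p ∈ List.range k ×ˢ List.range l ↔ p.1 < k ∧ p.2 < l := by
    intro k l p
    rw [List.mem_product]; simp
  simp only [List.mem_append, List.mem_map, List.mem_filter, hp, decide_eq_true_eq, or_assoc,
    List.mem_range]
  refine or_congr ?_ (or_congr ?_ (or_congr ?_ ?_))
  · constructor
    · rintro ⟨⟨k, x⟩, ⟨h1, h2⟩, rfl⟩
      exact ⟨k, x, h1, h2, rfl⟩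
    · rintro ⟨k, x, h1, h2, rfl⟩
      exact ⟨(k, x), ⟨h1, h2⟩, rfl⟩
  · constructor
    · rintro ⟨k, h1, rfl⟩; exact ⟨k, h1, rfl⟩
    · rintro ⟨k, h1, rfl⟩; exact ⟨k, h1, rfl⟩
  · constructor
    · rintro ⟨k, h1, rfl⟩; exact ⟨k, h1, rfl⟩
    · rintro ⟨k, h1, rfl⟩; exact ⟨k, h1, rfl⟩
  · constructor
    · rintro ⟨⟨k, x⟩, ⟨⟨h1, h2⟩, h3⟩, rfl⟩
      exact ⟨k, x, h3, h2, rfl⟩
    · rintro ⟨k, x, h1, h2, rfl⟩
      exact ⟨(k, x), ⟨⟨by simp only; omega, h2⟩, h1⟩, rfl⟩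

theorem he_sub : ∀ A ∈ he a, ∀ v ∈ A, v ∈ hv a := by
  intro A hA v hv'
  rcases (mem_he rfl rfl).1 hA with ⟨k, x, h1, h2, rfl⟩ | ⟨k, h1, rfl⟩ | ⟨k, h1, rfl⟩ | ⟨k, x, h1, h2, rfl⟩
  · simp only [List.mem_cons, List.not_mem_nil, or_false] at hv'
    rcases hv' with rfl | rfl
    · exact mem_hv.2 ⟨h1, le_rfl⟩
    · exact mem_hv.2 ⟨h1, h2.le⟩
  · exact (List.mem_filter.1 hv').1
  · exact (List.mem_filter.1 hv').1
  · exact (List.mem_filter.1 hv').1

/-- the conditions are about four different elements -/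
def GoodQ (n : ℕ) (q : Quad) : Prop :=
  [q.1.1, q.1.2, q.2.1, q.2.2].Nodup ∧ q.1.1 < n ∧ q.1.2 < n ∧ q.2.1 < n ∧ q.2.2 < n

theorem no_cr {V : Type} {pos : V → ℕ} {A B : List V} (h1 : ¬ AltG 4 pos (· ∈ A) (· ∈ B))
    (h2 : ¬ AltG 4 pos (· ∈ B) (· ∈ A)) {p q r s : V} (hp : p ∈ A) (hp' : p ∉ B) (hq : q ∈ A)
    (hq' : q ∉ B) (hr : r ∈ B) (hr' : r ∉ A) (hs : s ∈ B) (hs' : s ∉ A) :
    ¬ Cr (pos p) (pos q) (pos r) (pos s) := by
  have key : ∀ (A B : V → Prop) (a b c d : V), A a ∧ ¬ B a → B b ∧ ¬ A b → A c ∧ ¬ B c → B d ∧ ¬ A d →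
      pos a < pos b → pos b < pos c → pos c < pos d → AltG 4 pos A B := by
    intro A B a b c d ha hb hc hd h1 h2 h3
    refine ⟨fun i => if i = 0 then a else if i = 1 then b else if i = 2 then c else d, ?_, ?_⟩
    · intro i hi
      interval_cases i
      · simpa using ha
      · simpa using hb
      · simpa using hc
      · rw [if_neg (by decide)]; simpa using hd
    · intro i j hij hj
      have h12 := h1.trans h2
      have h13 := h12.trans h3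
      have h23 := h2.trans h3
      interval_cases j
      · omega
      · interval_cases i; simpa using h1
      · interval_cases i <;> simpa
      · interval_cases i <;> simpa
  rintro (⟨g1, g2, g3⟩ | ⟨g1, g2, g3⟩ | ⟨g1, g2, g3⟩ | ⟨g1, g2, g3⟩ | ⟨g1, g2, g3⟩ | ⟨g1, g2, g3⟩ |
    ⟨g1, g2, g3⟩ | ⟨g1, g2, g3⟩)
  · exact h1 (key _ _ _ _ _ _ ⟨hp, hp'⟩ ⟨hr, hr'⟩ ⟨hq, hq'⟩ ⟨hs, hs'⟩ g1 g2 g3)
  · exact h1 (key _ _ _ _ _ _ ⟨hp, hp'⟩ ⟨hs, hs'⟩ ⟨hq, hq'⟩ ⟨hr, hr'⟩ g1 g2 g3)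
  · exact h1 (key _ _ _ _ _ _ ⟨hq, hq'⟩ ⟨hr, hr'⟩ ⟨hp, hp'⟩ ⟨hs, hs'⟩ g1 g2 g3)
  · exact h1 (key _ _ _ _ _ _ ⟨hq, hq'⟩ ⟨hs, hs'⟩ ⟨hp, hp'⟩ ⟨hr, hr'⟩ g1 g2 g3)
  · exact h2 (key _ _ _ _ _ _ ⟨hr, hr'⟩ ⟨hp, hp'⟩ ⟨hs, hs'⟩ ⟨hq, hq'⟩ g1 g2 g3)
  · exact h2 (key _ _ _ _ _ _ ⟨hr, hr'⟩ ⟨hq, hq'⟩ ⟨hs, hs'⟩ ⟨hp, hp'⟩ g1 g2 g3)
  · exact h2 (key _ _ _ _ _ _ ⟨hs, hs'⟩ ⟨hp, hp'⟩ ⟨hr, hr'⟩ ⟨hq, hq'⟩ g1 g2 g3)
  · exact h2 (key _ _ _ _ _ _ ⟨hs, hs'⟩ ⟨hq, hq'⟩ ⟨hr, hr'⟩ ⟨hp, hp'⟩ g1 g2 g3)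

include hn hK in
theorem sound4 (hq : ∀ q ∈ a.2, GoodQ n q) (h : FreeV ℕ 4 (hv a) (he a)) :
    ∃ p : ℕ → ℕ, (∀ x y, x < n → y < n → p x = p y → x = y) ∧
      ∀ q ∈ a.2, ¬ Cr (p q.1.1) (p q.1.2) (p q.2.1) (p q.2.2) := by
  obtain ⟨pos, h1, h2⟩ := h
  by_cases hK0 : K = 0
  · refine ⟨id, fun x y _ _ h => h, fun q hq' => ?_⟩
    rw [hK0] at hK
    rw [List.length_eq_zero_iff.1 hK] at hq'
    simp at hq'
  have inj : ∀ k x l y, k < K → x ≤ n → l < K → y ≤ n → pos (k, x) = pos (l, y) → k = l ∧ x = y := by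
    intro k x l y e1 e2 e3 e4 h
    have := h1 (mem_hv.2 ⟨by rw [hK]; exact e1, by rw [hn]; exact e2⟩)
      (mem_hv.2 ⟨by rw [hK]; exact e3, by rw [hn]; exact e4⟩) h
    simpa using this
  have noX : ∀ A ∈ he a, ∀ B ∈ he a, ∀ p q r s, p ∈ A → p ∉ B → q ∈ A → q ∉ B → r ∈ B → r ∉ A →
      s ∈ B → s ∉ A → ¬ Cr (pos p) (pos q) (pos r) (pos s) := by
    intro A hA B hB p q r s k1 k2 k3 k4 k5 k6 k7 k8
    exact no_cr (h2 A hA B hB) (h2 B hB A hA) k1 k2 k3 k4 k5 k6 k7 k8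
  have star : ∀ k x y, k + 1 < K → x < n → y < n →
      ¬ Cr (pos (k, n)) (pos (k, x)) (pos (k + 1, n)) (pos (k + 1, y)) := by
    intro k x y hk hx hy
    apply noX [(k, n), (k, x)] ((mem_he hn hK).2 (Or.inl ⟨k, x, by omega, hx, rfl⟩))
      [(k + 1, n), (k + 1, y)] ((mem_he hn hK).2 (Or.inl ⟨k + 1, y, by omega, hy, rfl⟩)) <;> simp
  have mtch : ∀ k x y, k + 1 < K → x < n → y < n → x ≠ y →
      ¬ Cr (pos (k, y)) (pos (k + 1, x)) (pos (k, x)) (pos (k + 1, y)) := by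
    intro k x y hk hx hy hxy
    apply noX _ ((mem_he hn hK).2 (Or.inr (Or.inr (Or.inr ⟨k, x, hk, hx, rfl⟩))))
      _ ((mem_he hn hK).2 (Or.inr (Or.inr (Or.inr ⟨k, y, hk, hy, rfl⟩))))
    all_goals
      simp only [List.mem_filter, decide_eq_true_eq, mem_hv, hn, hK, Prod.mk.injEq, ne_eq, true_and,
        and_true, or_true, true_or, not_true_eq_false, and_false, or_false, false_or] <;> omega
  have low : ∀ k, k < K → ¬ Cr (pos (k, (qd a k).1.1)) (pos (k, (qd a k).1.2)) (pos (k, (qd a k).2.1))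
      (pos (k, (qd a k).2.2)) := by
    intro k hk
    have hqk : GoodQ n (qd a k) := by
      apply hq
      unfold qd
      rw [List.getD_eq_getElem _ _ (by omega)]
      exact List.getElem_mem _
    obtain ⟨g0, g1, g2, g3, g4⟩ := hqk
    simp only [List.nodup_cons, List.mem_cons, List.not_mem_nil, or_false, not_or, not_false_eq_true,
      List.nodup_nil, and_true] at g0
    apply noX _ ((mem_he hn hK).2 (Or.inr (Or.inl ⟨k, hk, rfl⟩)))
      _ ((mem_he hn hK).2 (Or.inr (Or.inr (Or.inl ⟨k, hk, rfl⟩))))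
    all_goals
      simp only [List.mem_filter, decide_eq_true_eq, mem_hv, hn, hK, Prod.mk.injEq, ne_eq, true_and,
        and_true, or_true, true_or, not_true_eq_false, and_false, or_false, false_or] <;> omega
  have pne : ∀ k x l y, k < K → x ≤ n → l < K → y ≤ n → (k ≠ l ∨ x ≠ y) → pos (k, x) ≠ pos (l, y) := by
    intro k x l y e1 e2 e3 e4 h h'
    have := inj k x l y e1 e2 e3 e4 h'
    omega
  have stepc : ∀ k x y z, k + 1 < K → x < n → y < n → z < n → x ≠ y → x ≠ z → y ≠ z →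
      (Cyc (pos (k, x)) (pos (k, y)) (pos (k, z)) ↔
        Cyc (pos (k + 1, x)) (pos (k + 1, y)) (pos (k + 1, z))) := by
    intro k x y z hk hx hy hz hxy hxz hyz
    refine cyc_step (c := pos (k, n)) (c' := pos (k + 1, n)) ?_
      (star k x x hk hx hx) (star k x y hk hx hy) (star k x z hk hx hz)
      (star k y x hk hy hx) (star k y y hk hy hy) (star k y z hk hy hz)
      (star k z x hk hz hx) (star k z y hk hz hy) (star k z z hk hz hz)
      (mtch k x y hk hx hy hxy) (mtch k x z hk hx hz hxz) (mtch k y z hk hy hz hyz)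
    have : ([(k, n), (k, x), (k, y), (k, z), (k + 1, n), (k + 1, x), (k + 1, y), (k + 1, z)].map pos).Nodup := by
      refine List.Nodup.map_on ?_ ?_
      · rintro ⟨k1, x1⟩ h3 ⟨k2, x2⟩ h4 h5
        have h3' : k1 < K ∧ x1 ≤ n := by
          simp only [List.mem_cons, List.not_mem_nil, or_false, Prod.mk.injEq] at h3; omega
        have h4' : k2 < K ∧ x2 ≤ n := by
          simp only [List.mem_cons, List.not_mem_nil, or_false, Prod.mk.injEq] at h4; omega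
        have := inj _ _ _ _ h3'.1 h3'.2 h4'.1 h4'.2 h5
        rw [this.1, this.2]
      · simp only [List.nodup_cons, List.mem_cons, List.not_mem_nil, or_false, not_or, not_false_eq_true,
          List.nodup_nil, and_true, Prod.mk.injEq]
        omega
    simpa using this
  have cyc0 : ∀ k x y z, k < K → x < n → y < n → z < n → x ≠ y → x ≠ z → y ≠ z →
      (Cyc (pos (0, x)) (pos (0, y)) (pos (0, z)) ↔ Cyc (pos (k, x)) (pos (k, y)) (pos (k, z))) := by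
    intro k
    induction k with
    | zero => intro x y z _ _ _ _ _ _ _; exact Iff.rfl
    | succ k ih =>
      intro x y z hk hx hy hz hxy hxz hyz
      exact (ih x y z (by omega) hx hy hz hxy hxz hyz).trans (stepc k x y z hk hx hy hz hxy hxz hyz)
  refine ⟨fun x => pos (0, x), ?_, ?_⟩
  · intro x y hx hy h
    exact (inj 0 x 0 y (by omega) hx.le (by omega) hy.le h).2
  · intro q hq'
    obtain ⟨k, hk, rfl⟩ := List.getElem_of_mem hq'
    rw [hK] at hk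
    have e : qd a k = a.2[k] := by
      unfold qd
      rw [List.getD_eq_getElem]
    have hl := low k hk
    rw [e] at hl
    obtain ⟨g0, g1, g2, g3, g4⟩ := hq _ hq'
    simp only [List.nodup_cons, List.mem_cons, List.not_mem_nil, or_false, not_or, not_false_eq_true,
      List.nodup_nil, and_true] at g0
    obtain ⟨⟨d1, d2, d3⟩, ⟨d4, d5⟩, d6⟩ := g0
    have hpk : ∀ l, l < K → ∀ x y, x < n → y < n → x ≠ y → pos (l, x) ≠ pos (l, y) := fun l hl x y hx hy h =>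
      pne l x l y hl hx.le hl hy.le (Or.inr h)
    have p0 := hpk 0 (by omega)
    have pk := hpk k hk
    dsimp only
    rw [cr_iff (p0 _ _ g1 g2 d1) (p0 _ _ g1 g3 d2) (p0 _ _ g1 g4 d3) (p0 _ _ g2 g3 d4) (p0 _ _ g2 g4 d5)
      (p0 _ _ g3 g4 d6), cyc0 k _ _ _ hk g1 g2 g3 d1 d2 d4, cyc0 k _ _ _ hk g1 g2 g4 d1 d3 d5,
      ← cr_iff (pk _ _ g1 g2 d1) (pk _ _ g1 g3 d2) (pk _ _ g1 g4 d3) (pk _ _ g2 g3 d4) (pk _ _ g2 g4 d5)
      (pk _ _ g3 g4 d6)]
    exact hl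

end

end Pool.Agent.Q9h3.AB
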