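import Pool.Agent.Q9h3.AB.Core3

/-!
# ABA-freeness is decidable in polynomial time
-/

set_option autoImplicit false
set_option synthInstance.maxSize 2000

namespace Pool.Agent.Q9h3.AB

open Pool.Agent.Lib.CX Relation

/-- all pairs of vertices -/
def prs (H : Hyp) : List (ℕ × ℕ) := List.range H.1.length ×ˢ List.range H.1.length

/-- one step of the closure -/
def expd (H : Hyp) (S : List (ℕ × ℕ)) : List (ℕ × ℕ) :=
  (prs H).filter fun q => decide (q ∈ S ∨ ∃ s ∈ S, ∃ A ∈ H.2, ∃ B ∈ H.2,
    ((s.1 ∈ A ∧ s.1 ∉ B) ∧ (s.2 ∈ B ∧ s.2 ∉ A)) ∧ ((q.1 ∈ A ∧ q.1 ∉ B) ∧ (q.2 ∈ B ∧ q.2 ∉ A)))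

/-- the closure -/
def reach (a : Hyp × (ℕ × ℕ)) : List (ℕ × ℕ) := (expd a.1)^[a.1.1.length * a.1.1.length] [a.2]

theorem mem_prs {H : Hyp} {q : ℕ × ℕ} : q ∈ prs H ↔ q.1 < H.n ∧ q.2 < H.n := by
  unfold prs; rw [List.mem_product]; simp

theorem mem_expd {H : Hyp} {S : List (ℕ × ℕ)} {q : ℕ × ℕ} :
    q ∈ expd H S ↔ q ∈ prs H ∧ (q ∈ S ∨ ∃ s ∈ S, R H.E s q) := by
  unfold expd R Sp
  rw [List.mem_filter, decide_eq_true_eq]

theorem reach_pt : PT reach := by
  unfold reach
  refine PT.iterate (F := fun a : Hyp × (ℕ × ℕ) => expd a.1) (i := fun a => [a.2])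
    (n := fun a => a.1.1.length * a.1.1.length)
    (B := fun a => size (prs a.1) + size [a.2]) ?_ (by fun_prop) (by fun_prop) (by fun_prop)
    (by unfold prs; fun_prop) ?_
  · unfold expd prs
    fun_prop
  · intro a k _
    cases k with
    | zero => simp
    | succ k =>
      rw [Function.iterate_succ_apply']
      exact (size_sublist List.filter_sublist).trans (Nat.le_add_right _ _)

theorem reach_spec {H : Hyp} (hE : ∀ A ∈ H.E, ∀ v ∈ A, v < H.n) {p : ℕ × ℕ} (hp : p ∈ prs H)
    {q : ℕ × ℕ} : q ∈ reach (H, p) ↔ C H.E p q := by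
  unfold reach
  simp only
  have sound : ∀ k q, q ∈ (expd H)^[k] [p] → C H.E p q := by
    intro k
    induction k with
    | zero => intro q hq; simp at hq; subst hq; exact .refl
    | succ k ih =>
      intro q hq
      rw [Function.iterate_succ_apply', mem_expd] at hq
      obtain ⟨-, hq | ⟨s, hs, hsq⟩⟩ := hq
      · exact ih q hq
      · exact .tail (ih s hs) hsq
  have inP : ∀ k, ∀ q ∈ (expd H)^[k] [p], q ∈ prs H := by
    intro k q hq
    cases k with
    | zero => simp at hq; subst hq; exact hp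
    | succ k => rw [Function.iterate_succ_apply', mem_expd] at hq; exact hq.1
  have mono : ∀ k q, q ∈ (expd H)^[k] [p] → q ∈ (expd H)^[k + 1] [p] := by
    intro k q hq
    rw [Function.iterate_succ_apply', mem_expd]
    exact ⟨inP k q hq, Or.inl hq⟩
  -- a step that changes nothing occurs
  have stab : ∃ j < H.1.length * H.1.length, ∀ q, q ∈ (expd H)^[j + 1] [p] → q ∈ (expd H)^[j] [p] := by
    by_contra hcon
    push Not at hcon
    have grow : ∀ k ≤ H.1.length * H.1.length, k + 1 ≤ ((expd H)^[k] [p]).toFinset.card := by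
      intro k
      induction k with
      | zero => intro _; simp
      | succ k ih =>
        intro hk
        have h1 := ih (by omega)
        obtain ⟨q, hq1, hq2⟩ := hcon k (by omega)
        have h2 : ((expd H)^[k] [p]).toFinset.card < ((expd H)^[k + 1] [p]).toFinset.card := by
          apply Finset.card_lt_card
          rw [Finset.ssubset_iff_of_subset (fun z hz => by
            rw [List.mem_toFinset] at hz ⊢; exact mono k z hz)]
          exact ⟨q, by rw [List.mem_toFinset]; exact hq1, by rw [List.mem_toFinset]; exact hq2⟩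
        omega
    have h1 := grow _ le_rfl
    have h2 : ((expd H)^[H.1.length * H.1.length] [p]).toFinset.card ≤ (prs H).toFinset.card :=
      Finset.card_le_card fun z hz => by rw [List.mem_toFinset] at hz ⊢; exact inP _ z hz
    have h3 : (prs H).toFinset.card ≤ H.1.length * H.1.length := by
      refine (List.toFinset_card_le _).trans ?_
      unfold prs
      rw [List.length_product]
      simp
    omega
  obtain ⟨j, hj, hjs⟩ := stab
  have closed : ∀ q s, s ∈ (expd H)^[j] [p] → R H.E s q → q ∈ (expd H)^[j] [p] := by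
    intro q s hs hsq
    apply hjs
    rw [Function.iterate_succ_apply', mem_expd]
    refine ⟨?_, Or.inr ⟨s, hs, hsq⟩⟩
    rw [mem_prs]
    have := R.lt hE (show R H.E (q.1, q.2) (q.1, q.2) from hsq.act)
    exact this
  have mono' : ∀ k, ∀ q, q ∈ (expd H)^[j] [p] → q ∈ (expd H)^[j + k] [p] := by
    intro k
    induction k with
    | zero => intro q h; exact h
    | succ k ih => intro q h; exact mono _ q (ih q h)
  have start : ∀ k, p ∈ (expd H)^[k] [p] := by
    intro k
    induction k with
    | zero => simp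
    | succ k ih => exact mono k p ih
  constructor
  · exact sound _ q
  · intro h
    have : q ∈ (expd H)^[j] [p] := by
      induction h with
      | refl => exact start j
      | tail _ h2 ih => exact closed _ _ ih h2
    have h5 := mono' (H.1.length * H.1.length - j) q this
    rwa [Nat.add_sub_cancel' hj.le] at h5

theorem inP3 : InP fun H : {H : Hyp // Valid H} => AltFree 3 H.1 := by
  have h1 : PT fun H : {H : Hyp // Valid H} => decide (∀ p ∈ prs H.1,
      (∃ A ∈ H.1.2, ∃ B ∈ H.1.2, (p.1 ∈ A ∧ p.1 ∉ B) ∧ (p.2 ∈ B ∧ p.2 ∉ A)) →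
      ¬ (p.2, p.1) ∈ reach (H.1, p)) := by
    have := reach_pt
    unfold prs
    fun_prop
  refine (InP.of_decide h1).of_iff fun ⟨H, hH⟩ => ?_
  have hE : ∀ A ∈ H.E, ∀ v ∈ A, v < H.n := fun A hA => (hH.1 A hA).2
  rw [altFree_iff, free3_iff hE]
  simp only
  constructor
  · rintro h ⟨x, y⟩ hp ⟨A, hA, B, hB, h2⟩
    rw [reach_spec hE hp]
    exact h x y ⟨A, hA, B, hB, h2, h2⟩
  · intro h x y hR
    have hp : (x, y) ∈ prs H := mem_prs.2 (R.lt hE hR)
    have hR' := hR
    obtain ⟨A, hA, B, hB, h2, -⟩ := hR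
    have := h (x, y) hp ⟨A, hA, B, hB, h2⟩
    rwa [reach_spec hE hp] at this

end Pool.Agent.Q9h3.AB
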